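import Mathlib.Algebra.BigOperators.Intervals
import Mathlib.Algebra.Notation.Lemmas
import Mathlib.Algebra.BigOperators.ModEq
import Mathlib.Algebra.Order.Ring.Star
import Mathlib.Data.Int.CardIntervalMod

-- ======== part 0: formerly Pool.Agent.MP_f65396_co.h32.Num1
section MrgPart0

/-! Ranks, dealing into columns, subset sums and a wrap-around schedule. -/

set_option autoImplicit false

namespace Pool.Agent.MP_f65396_co.h32

open Finset

/-- The number of members of `U` above `h`. -/
def rk (U : Finset ℕ) (h : ℕ) : ℕ := (U.filter (fun z => h < z)).card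

lemma rk_add (U : Finset ℕ) {h h' : ℕ} (hh : h ≤ h') :
    rk U h = rk U h' + (U.filter (fun z => h < z ∧ z ≤ h')).card := by
  unfold rk
  rw [← card_union_of_disjoint]
  · congr 1
    ext z
    simp only [mem_filter, mem_union]
    constructor
    · rintro ⟨a, b⟩
      by_cases c : h' < z
      · exact Or.inl ⟨a, c⟩
      · exact Or.inr ⟨a, b, by omega⟩
    · rintro (⟨a, b⟩ | ⟨a, b, -⟩)
      · exact ⟨a, by omega⟩
      · exact ⟨a, b⟩
  · rw [disjoint_left]
    intro z h1 h2
    simp only [mem_filter] at h1 h2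
    omega

lemma rk_lt_card {U : Finset ℕ} {h : ℕ} (hU : h ∈ U) : rk U h < U.card := by
  refine card_lt_card ⟨filter_subset _ _, fun hh => ?_⟩
  have := (mem_filter.1 (hh hU)).2
  omega

lemma rk_anti {U : Finset ℕ} {h h' : ℕ} (hU : h' ∈ U) (hh : h < h') : rk U h' < rk U h := by
  rw [rk_add U hh.le]
  have : 0 < (U.filter (fun z => h < z ∧ z ≤ h')).card :=
    card_pos.2 ⟨h', mem_filter.2 ⟨hU, hh, le_rfl⟩⟩
  omega

lemma rk_inj {U : Finset ℕ} {h h' : ℕ} (hU : h ∈ U) (hU' : h' ∈ U) (e : rk U h = rk U h') :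
    h = h' := by
  rcases lt_trichotomy h h' with c | c | c
  · have := rk_anti hU' c
    omega
  · exact c
  · have := rk_anti hU c
    omega

lemma rk_image (U : Finset ℕ) : U.image (rk U) = range U.card := by
  refine eq_of_subset_of_card_le ?_ ?_
  · intro i hi
    obtain ⟨h, hU, rfl⟩ := mem_image.1 hi
    exact mem_range.2 (rk_lt_card hU)
  · rw [card_range, card_image_of_injOn (fun a ha b hb e => rk_inj ha hb e)]

lemma rk_surj (U : Finset ℕ) {i : ℕ} (hi : i < U.card) : ∃ h ∈ U, rk U h = i := by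
  have : i ∈ U.image (rk U) := by rw [rk_image]; exact mem_range.2 hi
  exact mem_image.1 this

lemma rk_card (U : Finset ℕ) (p : ℕ → Prop) [DecidablePred p] :
    (U.filter (fun h => p (rk U h))).card = ((range U.card).filter p).card := by
  rw [← rk_image, filter_image, card_image_of_injOn]
  intro a ha b hb e
  exact rk_inj (mem_filter.1 ha).1 (mem_filter.1 hb).1 e

lemma rk_gap {U : Finset ℕ} {h h' g : ℕ} (hg : 0 < g) (e : rk U h' + g ≤ rk U h) :
    h + g ≤ h' := by
  by_cases c : h' ≤ h
  · have := rk_add U c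
    omega
  have a := rk_add U (show h ≤ h' by omega)
  have b : (U.filter (fun z => h < z ∧ z ≤ h')).card ≤ (Ioc h h').card :=
    card_le_card fun z hz => mem_Ioc.2 (mem_filter.1 hz).2
  rw [Nat.card_Ioc] at b
  omega

lemma cnt_mod (N : ℕ) {k j : ℕ} (hj : j < k) :
    ((range N).filter (fun i => i % k = j)).card = N / k + if j < N % k then 1 else 0 := by
  have := Nat.count_modEq_card N (show 0 < k by omega) j
  rw [Nat.count_eq_card_filter_range, Nat.mod_eq_of_lt hj] at this
  rw [← this]
  congr 1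
  ext i
  simp only [mem_filter, Nat.ModEq, Nat.mod_eq_of_lt hj]

lemma cnt_mod_ge (N : ℕ) {k j : ℕ} (hj : j < k) :
    N / k ≤ ((range N).filter (fun i => i % k = j)).card := by
  rw [cnt_mod N hj]
  omega

lemma cnt_mod_le (N : ℕ) {k j : ℕ} (hj : j < k) :
    ((range N).filter (fun i => i % k = j)).card ≤ N / k + 1 := by
  rw [cnt_mod N hj]
  split_ifs <;> omega

lemma cnt_mod_le' {N k j m : ℕ} (hj : j < k) (hN : N ≤ m * k) :
    ((range N).filter (fun i => i % k = j)).card ≤ m := by
  refine (card_le_card (filter_subset_filter _ (range_subset_range.2 hN))).trans ?_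
  rw [cnt_mod _ hj, Nat.mul_mod_left, Nat.mul_div_cancel _ (by omega)]
  simp

lemma cnt_mod_Ico (a m : ℕ) {k j : ℕ} (hj : j < k) :
    m ≤ ((Ico a (a + m * k)).filter (fun i => i % k = j)).card := by
  have h1 := cnt_mod a hj
  have h2 := cnt_mod (a + m * k) hj
  rw [Nat.add_mul_mod_self_right, Nat.add_mul_div_right _ _ (by omega)] at h2
  have h3 : (range (a + m * k)).filter (fun i => i % k = j) ⊆
      (range a).filter (fun i => i % k = j) ∪ (Ico a (a + m * k)).filter (fun i => i % k = j) := by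
    intro i hi
    simp only [mem_filter, mem_range, mem_union, mem_Ico] at hi ⊢
    omega
  have h4 := (card_le_card h3).trans (card_union_le _ _)
  omega

/-- Points whose colour classes have at most `k` members fall into long columns of distinct
colours. -/
theorem deal {α : Type*} [DecidableEq α] (Y : Finset α) (key κ : α → ℕ)
    (hinj : Set.InjOn key Y) (hmono : ∀ y ∈ Y, ∀ z ∈ Y, key y ≤ key z → κ y ≤ κ z)
    (k : ℕ) (hk : 0 < k) (hfib : ∀ y ∈ Y, (Y.filter (fun z => κ z = κ y)).card ≤ k) :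
    ∃ col : α → ℕ, (∀ y ∈ Y, ∀ z ∈ Y, col y = col z → κ y = κ z → y = z) ∧
      ∀ y ∈ Y, Y.card / k ≤ (Y.filter (fun z => col z = col y)).card := by
  set U := Y.image key with hU
  have aux : ∀ y ∈ Y, ∀ z ∈ Y, key y < key z → κ y = κ z →
      rk U (key y) % k ≠ rk U (key z) % k := by
    intro y hy z hz hlt hκ e
    have a := rk_add U hlt.le
    set c := (U.filter (fun w => key y < w ∧ w ≤ key z)).card with hc
    have c0 : 0 < c := card_pos.2 ⟨key z, mem_filter.2 ⟨mem_image_of_mem _ hz, hlt, le_rfl⟩⟩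
    have c1 : c ≤ ((Y.filter (fun w => κ w = κ y)).erase y).card := by
      refine le_trans (card_le_card ?_) (card_image_le (f := key))
      intro w hw
      obtain ⟨hw, h1, h2⟩ := mem_filter.1 hw
      obtain ⟨v, hv, rfl⟩ := mem_image.1 hw
      refine mem_image_of_mem _ (mem_erase.2 ⟨fun hh => by rw [hh] at h1; omega, ?_⟩)
      have b1 := hmono y hy v hv h1.le
      have b2 := hmono v hv z hz h2
      exact mem_filter.2 ⟨hv, by omega⟩
    have hyf : y ∈ Y.filter (fun w => κ w = κ y) := mem_filter.2 ⟨hy, rfl⟩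
    rw [card_erase_of_mem hyf] at c1
    have c2 := hfib y hy
    have c3 : k ∣ c := by
      have : rk U (key z) + c ≡ rk U (key z) + 0 [MOD k] := by
        rw [← a]
        exact e
      exact (Nat.modEq_zero_iff_dvd).1 (Nat.ModEq.add_left_cancel' _ this)
    have := Nat.le_of_dvd c0 c3
    omega
  refine ⟨fun y => rk U (key y) % k, fun y hy z hz e hκ => ?_, fun y hy => ?_⟩
  · rcases lt_trichotomy (key y) (key z) with c | c | c
    · exact absurd e (aux y hy z hz c hκ)
    · exact hinj hy hz c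
    · exact absurd e.symm (aux z hz y hy c hκ.symm)
  · have a := rk_card U (fun i => i % k = rk U (key y) % k)
    have b := cnt_mod_ge U.card (Nat.mod_lt (rk U (key y)) hk)
    have c : U.card = Y.card := card_image_of_injOn hinj
    rw [← a, c, hU, filter_image] at b
    exact b.trans card_image_le

/-- Bounded weights with enough unit weights reach every sum. -/
theorem complete {α : Type*} [DecidableEq α] (Sl : Finset α) (w : α → ℕ) (μ : ℕ)
    (hw : ∀ a ∈ Sl, w a ≤ μ) (hu : μ ≤ (Sl.filter (fun a => w a = 1)).card) (x : ℕ)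
    (hx : x ≤ ∑ a ∈ Sl, w a) : ∃ A ⊆ Sl, ∑ a ∈ A, w a = x := by
  set Un := Sl.filter (fun a => w a = 1) with hUn
  have key : ∀ R : Finset α, R ⊆ Sl.filter (fun a => ¬ w a = 1) → ∀ x ≤ Un.card + ∑ a ∈ R, w a,
      ∃ A ⊆ Un ∪ R, ∑ a ∈ A, w a = x := by
    intro R
    induction R using Finset.induction_on with
    | empty =>
      intro _ x hx
      obtain ⟨A, hA, hc⟩ := exists_subset_card_eq (s := Un) (n := x) (by simpa using hx)
      refine ⟨A, hA.trans subset_union_left, ?_⟩
      rw [← hc, card_eq_sum_ones]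
      exact sum_congr rfl fun a ha => (mem_filter.1 (hA ha)).2
    | insert b R hb ih =>
      intro hR x hx
      have hR' := (subset_insert _ _).trans hR
      have hb' := mem_filter.1 (hR (mem_insert_self _ _))
      rw [sum_insert hb] at hx
      by_cases c : x ≤ Un.card + ∑ a ∈ R, w a
      · obtain ⟨A, hA, e⟩ := ih hR' x c
        exact ⟨A, hA.trans (union_subset_union_right (subset_insert _ _)), e⟩
      · have b1 := hw b hb'.1
        obtain ⟨A, hA, e⟩ := ih hR' (x - w b) (by omega)
        have hbA : b ∉ A := fun hh => by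
          rcases mem_union.1 (hA hh) with h | h
          · exact hb'.2 (mem_filter.1 h).2
          · exact hb h
        refine ⟨insert b A, ?_, ?_⟩
        · exact insert_subset (mem_union_right _ (mem_insert_self _ _))
            (hA.trans (union_subset_union_right (subset_insert _ _)))
        · rw [sum_insert hbA, e]
          omega
  have e : Un.card + ∑ a ∈ Sl.filter (fun a => ¬ w a = 1), w a = ∑ a ∈ Sl, w a := by
    rw [← sum_filter_add_sum_filter_not Sl (fun a => w a = 1), card_eq_sum_ones]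
    congr 1
    exact sum_congr rfl fun a ha => (mem_filter.1 ha).2.symm
  obtain ⟨A, hA, h⟩ := key _ Subset.rfl x (by omega)
  exact ⟨A, hA.trans (union_subset (filter_subset _ _) (filter_subset _ _)), h⟩

/-- The load of machine `i`. -/
def mload {α : Type*} (Sl : Finset α) (w mi : α → ℕ) (i : ℕ) : ℕ :=
  ∑ a ∈ Sl.filter (fun a => mi a = i), w a

/-- The wrap-around schedule: machines in a row are cut into jobs, every machine serving at most
two jobs. -/
theorem mcn {α : Type*} [DecidableEq α] (Sl : Finset α) (w mi : α → ℕ) (N : ℕ)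
    (hmi : ∀ a ∈ Sl, mi a < N) (d : ℕ → ℕ) (hd : ∀ j, 0 < d j)
    (hmax : ∀ i j, mload Sl w mi i ≤ d j)
    (hcomp : ∀ i x, x ≤ mload Sl w mi i →
      ∃ A ⊆ Sl.filter (fun a => mi a = i), ∑ a ∈ A, w a = x)
    (k : ℕ) (hsum : ∑ j ∈ range k, d j = ∑ a ∈ Sl, w a) :
    ∃ job : α → ℕ, (∀ a ∈ Sl, 0 < w a → job a < k) ∧
      (∀ j < k, ∑ a ∈ Sl.filter (fun a => job a = j), w a = d j) ∧
      ∀ a ∈ Sl, ∀ b ∈ Sl, 0 < w a → 0 < w b → job a = job b → mi a < mi b →
        ∑ i ∈ Ico (mi a + 1) (mi b), mload Sl w mi i < d (job a) := by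
  set W := mload Sl w mi with hW
  set P : ℕ → ℕ := fun i => ∑ i' ∈ range i, W i' with hP
  set Q : ℕ → ℕ := fun j => ∑ j' ∈ range j, d j' with hQ
  have Ps : ∀ i, P (i + 1) = P i + W i := fun i => sum_range_succ _ _
  have Qs : ∀ j, Q (j + 1) = Q j + d j := fun j => sum_range_succ _ _
  have Qm : Monotone Q := monotone_nat_of_le_succ fun j => by rw [Qs]; omega
  have Qg : ∀ j, j ≤ Q j := fun j => by
    induction j with
    | zero => omega
    | succ j ih =>
      have := hd j
      rw [Qs]
      omega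
  have ex : ∀ i, ∃ j, P i < Q (j + 1) := fun i => ⟨P i, Qg _⟩
  set J : ℕ → ℕ := fun i => Nat.find (ex i) with hJ
  have J1 : ∀ i, P i < Q (J i + 1) := fun i => Nat.find_spec (ex i)
  have J2 : ∀ i, Q (J i) ≤ P i := fun i => by
    rcases Nat.eq_zero_or_pos (J i) with h | h
    · rw [h]
      exact Nat.zero_le _
    · have := Nat.find_min (ex i) (show J i - 1 < J i by omega)
      rw [show J i - 1 + 1 = J i by omega] at this
      omega
  have hA : ∀ i, ∃ A ⊆ Sl.filter (fun a => mi a = i),
      ∑ a ∈ A, w a = min (W i) (Q (J i + 1) - P i) := fun i => hcomp i _ (min_le_left _ _)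
  choose A hA1 hA2 using hA
  set job : α → ℕ := fun a => if a ∈ A (mi a) then J (mi a) else J (mi a) + 1 with hjob
  have rest : ∀ i, ∑ a ∈ (Sl.filter (fun a => mi a = i)) \ A i, w a + ∑ a ∈ A i, w a = W i :=
    fun i => sum_sdiff (hA1 i)
  have step : ∀ j i, ∑ a ∈ (Sl.filter (fun a => mi a = i)).filter (fun a => job a = j), w a +
      min (max (P i) (Q j)) (Q (j + 1)) = min (max (P (i + 1)) (Q j)) (Q (j + 1)) := by
    intro j i
    have a1 := J1 i
    have a2 := J2 i
    have a3 := Ps i
    have a4 := Qs (J i + 1)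
    have a5 := hmax i (J i + 1)
    have a6 := rest i
    have a7 := hA2 i
    have a8 := Qs j
    by_cases c1 : j = J i
    · have e : (Sl.filter (fun a => mi a = i)).filter (fun a => job a = j) = A i := by
        ext a
        constructor
        · intro ha
          obtain ⟨h1, h2⟩ := mem_filter.1 ha
          have h3 := (mem_filter.1 h1).2
          simp only [hjob, h3] at h2
          by_contra hh
          rw [if_neg hh] at h2
          omega
        · intro ha
          have h3 := (mem_filter.1 (hA1 i ha)).2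
          refine mem_filter.2 ⟨hA1 i ha, ?_⟩
          simp only [hjob, h3, if_pos ha, c1]
      rw [e, c1]
      omega
    by_cases c2 : j = J i + 1
    · have e : (Sl.filter (fun a => mi a = i)).filter (fun a => job a = j) =
          (Sl.filter (fun a => mi a = i)) \ A i := by
        ext a
        constructor
        · intro ha
          obtain ⟨h1, h2⟩ := mem_filter.1 ha
          have h3 := (mem_filter.1 h1).2
          simp only [hjob, h3] at h2
          refine mem_sdiff.2 ⟨h1, fun hh => ?_⟩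
          rw [if_pos hh] at h2
          omega
        · intro ha
          obtain ⟨h1, h2⟩ := mem_sdiff.1 ha
          have h3 := (mem_filter.1 h1).2
          refine mem_filter.2 ⟨h1, ?_⟩
          simp only [hjob, h3, if_neg h2, c2]
      rw [e, c2]
      omega
    have e : (Sl.filter (fun a => mi a = i)).filter (fun a => job a = j) = ∅ := by
      refine filter_eq_empty_iff.2 fun a h1 h2 => ?_
      have h3 := (mem_filter.1 h1).2
      simp only [hjob, h3] at h2
      split_ifs at h2 <;> omega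
    rw [e, sum_empty]
    rcases lt_or_gt_of_ne c1 with c | c
    · have := Qm (show j + 1 ≤ J i by omega)
      omega
    · have := Qm (show J i + 1 + 1 ≤ j by omega)
      omega
  have total : ∀ j, ∑ a ∈ Sl.filter (fun a => job a = j), w a + Q j =
      min (max (Q k) (Q j)) (Q (j + 1)) := by
    intro j
    have tel : ∀ m, ∑ i ∈ range m,
        ∑ a ∈ (Sl.filter (fun a => mi a = i)).filter (fun a => job a = j), w a + Q j =
        min (max (P m) (Q j)) (Q (j + 1)) := by
      intro m
      induction m with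
      | zero =>
        have := Qs j
        have : P 0 = 0 := rfl
        rw [sum_range_zero]
        omega
      | succ m ih =>
        have := step j m
        rw [sum_range_succ]
        omega
    have e1 : P N = Q k := by
      simp only [hP, hQ, hsum, hW, mload]
      exact sum_fiberwise_of_maps_to (fun a ha => mem_range.2 (hmi a ha)) _
    rw [← e1, ← tel N]
    congr 1
    rw [← sum_fiberwise_of_maps_to (s := Sl.filter (fun a => job a = j)) (t := range N) (g := mi)
      (fun a ha => mem_range.2 (hmi a (mem_filter.1 ha).1))]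
    exact sum_congr rfl fun i _ => by rw [filter_comm]
  have pos : ∀ a ∈ Sl, 0 < w a → Q (job a) < P (mi a + 1) ∧ P (mi a) < Q (job a + 1) := by
    intro a ha hw
    have a1 := J1 (mi a)
    have a2 := J2 (mi a)
    have a3 := Ps (mi a)
    have a4 := Qs (J (mi a) + 1)
    have a6 := rest (mi a)
    have a7 := hA2 (mi a)
    by_cases c : a ∈ A (mi a)
    · have := single_le_sum (f := w) (fun _ _ => Nat.zero_le _) c
      simp only [hjob, if_pos c]
      omega
    · have := single_le_sum (f := w) (fun _ _ => Nat.zero_le _)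
        (mem_sdiff.2 ⟨mem_filter.2 ⟨ha, rfl⟩, c⟩ :
          a ∈ (Sl.filter (fun b => mi b = mi a)) \ A (mi a))
      simp only [hjob, if_neg c]
      omega
  refine ⟨job, fun a ha hw => ?_, fun j hj => ?_, fun a ha b hb wa wb e hlt => ?_⟩
  · by_contra c
    have a1 := total (job a)
    have a2 := Qm (show k ≤ job a by omega)
    have a3 := Qs (job a)
    have := single_le_sum (f := w) (fun _ _ => Nat.zero_le _)
      (mem_filter.2 ⟨ha, rfl⟩ : a ∈ Sl.filter (fun b => job b = job a))
    omega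
  · have a1 := total j
    have a2 := Qm (show j + 1 ≤ k by omega)
    have a3 := Qs j
    omega
  · have a1 := (pos a ha wa).1
    have a2 := (pos b hb wb).2
    have a3 := Qs (job a)
    have a4 : P (mi a + 1) + ∑ i ∈ Ico (mi a + 1) (mi b), W i = P (mi b) :=
      sum_range_add_sum_Ico _ (by omega)
    rw [← e] at a2
    omega

end Pool.Agent.MP_f65396_co.h32

end MrgPart0

-- ======== part 1: formerly Pool.Agent.MP_f65396_co.h32.Num2
section MrgPart1

/-! Centres of middle degree share short arms. -/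

set_option autoImplicit false

namespace Pool.Agent.MP_f65396_co.h32

open Finset

/-- A set of heights that can be dealt into `g` short arms with isolated tops. -/
structure Good (σ : ℕ) (U : Finset ℕ) (g : ℕ) : Prop where
  g1 : 1 ≤ g
  gU : g ≤ U.card
  sz : U.card ≤ 55 * g
  lg : g = 1 ∨ 13 * g ≤ (U.filter (fun h => σ < 2 * h)).card
  top : ∀ h ∈ U, rk U h < g → 330000 ≤ h
  gap : ∀ h ∈ U, ∀ h' ∈ U, rk U h < g → rk U h + g ≤ rk U h' → h' + 330000 ≤ h

lemma large_of_rk {σ : ℕ} {U : Finset ℕ} {h : ℕ}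
    (e : rk U h < (U.filter (fun h => σ < 2 * h)).card) : σ < 2 * h := by
  by_contra c
  have : (U.filter (fun h => σ < 2 * h)).card ≤ rk U h :=
    card_le_card fun z hz => mem_filter.2 ⟨(mem_filter.1 hz).1, by
      have := (mem_filter.1 hz).2
      omega⟩
  omega

lemma slot_sum (n g : ℕ) (U : Finset ℕ) (hU : ∀ h ∈ U, h ≤ n) (arm : ℕ → ℕ)
    (harm : ∀ h, arm h < g) (p : ℕ × ℕ → Prop) [DecidablePred p] :
    ∑ a ∈ (range g ×ˢ range n).filter p, (U.filter (fun h => arm h = a.1 ∧ a.2 < h)).card =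
      ∑ h ∈ U, ((range h).filter (fun s => p (arm h, s))).card := by
  simp only [card_filter]
  rw [sum_comm]
  refine sum_congr rfl fun h hh => ?_
  rw [← card_filter, ← card_filter]
  symm
  refine card_bij (fun s _ => (arm h, s)) ?_ ?_ ?_
  · intro s hs
    have := hU h hh
    simp only [mem_filter, mem_range, mem_product] at hs ⊢
    exact ⟨⟨⟨harm h, by omega⟩, hs.2⟩, trivial, hs.1⟩
  · intro s _ s' _ e
    exact (Prod.ext_iff.1 e).2
  · intro a ha
    simp only [mem_filter, mem_range, mem_product] at ha ⊢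
    obtain ⟨⟨-, h2⟩, h3, h4⟩ := ha
    have e : (arm h, a.2) = a := Prod.ext h3 rfl
    exact ⟨a.2, ⟨h4, by rw [e]; exact h2⟩, e⟩

theorem marm {V : Type*} [DecidableEq V] (n σ : ℕ) (hn : 100000000 ≤ n) (hσ : n ≤ σ)
    (hσ2 : σ ≤ n + 1) (U : Finset ℕ) (hU : ∀ h ∈ U, h ≤ n) (g : ℕ) (hg : Good σ U g)
    (J : Finset V) (d : V → ℕ) (hd1 : ∀ a ∈ J, n < 100 * d a) (hd2 : ∀ a ∈ J, d a < 6 * σ)
    (hsum : ∑ a ∈ J, d a = ∑ h ∈ U, h) (a0 : V) :
    ∃ (arm : ℕ → ℕ) (own : ℕ → ℕ → V), (∀ h ∈ U, ∀ s < h, own (arm h) s ∈ J) ∧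
      (∀ h ∈ U, ∀ h' ∈ U, ∀ s, s < h → s < h' → own (arm h) s = own (arm h') s →
        arm h = arm h') ∧
      (∀ a ∈ J, ∑ h ∈ U, ((range h).filter (fun s => own (arm h) s = a)).card = d a) ∧
      ∀ j, (U.filter (fun h => arm h = j)).card ≤ 55 := by
  have g0 : 0 < g := hg.g1
  set arm : ℕ → ℕ := fun h => rk U h % g with harm
  have armlt : ∀ h, arm h < g := fun h => Nat.mod_lt _ g0
  have armsz : ∀ j, (U.filter (fun h => arm h = j)).card ≤ 55 := by
    intro j
    by_cases c : j < g
    · rw [harm, rk_card U (fun i => i % g = j)]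
      exact cnt_mod_le' c hg.sz
    · rw [filter_eq_empty_iff.2 (fun h _ e => by have := armlt h; omega)]
      simp
  set k := J.card with hk
  set enum : ℕ → V := fun j => if h : j < k then (J.equivFin.symm ⟨j, h⟩ : V) else a0 with henum
  have en1 : ∀ j < k, enum j ∈ J := fun j hj => by
    simp only [henum, dif_pos hj]
    exact (J.equivFin.symm ⟨j, hj⟩).2
  have en2 : ∀ j < k, ∀ j' < k, enum j = enum j' → j = j' := fun j hj j' hj' e => by
    simp only [henum, dif_pos hj, dif_pos hj'] at e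
    exact Fin.mk.inj_iff.1 (J.equivFin.symm.injective (Subtype.ext e))
  have en3 : ∀ a ∈ J, ∃ j < k, enum j = a := fun a ha =>
    ⟨(J.equivFin ⟨a, ha⟩).1, (J.equivFin ⟨a, ha⟩).2, by
      simp only [henum, Fin.eta, Equiv.symm_apply_apply]
      exact dif_pos (J.equivFin ⟨a, ha⟩).2⟩
  set dd : ℕ → ℕ := fun j => if j < k then d (enum j) else n with hdd
  have dd1 : ∀ j, n < 100 * dd j := fun j => by
    simp only [hdd]
    split_ifs with c
    · exact hd1 _ (en1 j c)
    · omega
  set Sl := range g ×ˢ range n with hSl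
  set w : ℕ × ℕ → ℕ := fun a => (U.filter (fun h => arm h = a.1 ∧ a.2 < h)).card with hw
  set mi : ℕ × ℕ → ℕ := fun a => a.1 * 6000 + a.2 % 6000 with hmi
  have w55 : ∀ a, w a ≤ 55 := fun a =>
    (card_le_card (fun h hh => mem_filter.2 ⟨(mem_filter.1 hh).1, (mem_filter.1 hh).2.1⟩)).trans
      (armsz a.1)
  have wpos : ∀ h ∈ U, ∀ s < h, (arm h, s) ∈ Sl ∧ 0 < w (arm h, s) := fun h hh s hs =>
    ⟨mem_product.2 ⟨mem_range.2 (armlt h), mem_range.2 (by have := hU h hh; omega)⟩,
      card_pos.2 ⟨h, mem_filter.2 ⟨hh, rfl, hs⟩⟩⟩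
  have hmax : ∀ i j, mload Sl w mi i ≤ dd j := by
    intro i j
    have a1 : mload Sl w mi i ≤ (Sl.filter (fun a => mi a = i)).card • 55 :=
      sum_le_card_nsmul _ _ _ (fun a _ => w55 a)
    have a2 : (Sl.filter (fun a => mi a = i)).card ≤
        ((range n).filter (fun s => s % 6000 = i % 6000)).card := by
      refine card_le_card_of_injOn (fun a => a.2) ?_ ?_
      · intro a ha
        simp only [coe_filter, hSl, mem_product, mem_range, Set.mem_ofPred_eq, hmi] at ha ⊢
        omega
      · intro a ha b hb e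
        simp only [coe_filter, hSl, mem_product, mem_range, Set.mem_ofPred_eq, hmi] at ha hb e
        exact Prod.ext (by omega) e
    have a3 := cnt_mod_le n (Nat.mod_lt i (show 0 < 6000 by norm_num))
    have a4 := dd1 j
    rw [smul_eq_mul] at a1
    omega
  have hcomp : ∀ i x, x ≤ mload Sl w mi i →
      ∃ A ⊆ Sl.filter (fun a => mi a = i), ∑ a ∈ A, w a = x := by
    intro i x hx
    by_cases c : i / 6000 < g
    · refine complete _ w 55 (fun a _ => w55 a) ?_ x hx
      obtain ⟨h0, hh0, r0⟩ := rk_surj U (c.trans_le hg.gU)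
      have t0 := hg.top h0 hh0 (by omega)
      have t1 := hU h0 hh0
      refine (cnt_mod_Ico (h0 - 330000) 55 (Nat.mod_lt i (show 0 < 6000 by norm_num))).trans ?_
      refine card_le_card_of_injOn (fun s => (i / 6000, s)) ?_ ?_
      · intro s hs
        simp only [coe_filter, mem_Ico, Set.mem_ofPred_eq] at hs
        simp only [coe_filter, Set.mem_ofPred_eq, mem_filter, hSl, mem_product, mem_range, hmi]
        refine ⟨⟨⟨c, by omega⟩, by omega⟩, ?_⟩
        refine card_eq_one.2 ⟨h0, ?_⟩
        ext h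
        simp only [mem_filter, mem_singleton, harm]
        constructor
        · rintro ⟨h1, h2, h3⟩
          by_cases c2 : rk U h < g
          · rw [Nat.mod_eq_of_lt c2] at h2
            exact rk_inj h1 hh0 (by omega)
          · exfalso
            have b1 := Nat.mod_add_div (rk U h) g
            have b2 : 1 ≤ rk U h / g := (Nat.le_div_iff_mul_le g0).2 (by omega)
            have b3 : g * 1 ≤ g * (rk U h / g) := Nat.mul_le_mul_left _ b2
            have := hg.gap h0 hh0 h h1 (by omega) (by omega)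
            omega
        · rintro rfl
          exact ⟨hh0, by rw [r0, Nat.mod_eq_of_lt c], by omega⟩
      · intro s _ s' _ e
        exact (Prod.ext_iff.1 e).2
    · have e : Sl.filter (fun a => mi a = i) = ∅ := by
        refine filter_eq_empty_iff.2 fun a ha e => ?_
        simp only [hSl, mem_product, mem_range, hmi] at ha e
        omega
      unfold mload at hx
      rw [e] at hx ⊢
      exact ⟨∅, Subset.rfl, by simpa using hx.antisymm' (Nat.zero_le _) ⟩
  have hs : ∑ j ∈ range k, dd j = ∑ a ∈ Sl, w a := by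
    have a1 := slot_sum n g U hU arm armlt (fun _ => True)
    simp only [filter_true, card_range] at a1
    rw [a1, ← hsum]
    refine sum_bij (fun j _ => enum j) (fun j hj => en1 j (mem_range.1 hj))
      (fun j hj j' hj' e => en2 j (mem_range.1 hj) j' (mem_range.1 hj') e) (fun a ha => ?_)
      (fun j hj => ?_)
    · obtain ⟨j, hj, e⟩ := en3 a ha
      exact ⟨j, mem_range.2 hj, e⟩
    · simp only [hdd, if_pos (mem_range.1 hj)]
  obtain ⟨job, j1, j2, j3⟩ := mcn Sl w mi (g * 6000) (fun a ha => by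
      simp only [hSl, mem_product, mem_range, hmi] at ha ⊢
      omega) dd (fun j => by have := dd1 j; omega) hmax hcomp k hs
  have jk : ∀ h ∈ U, ∀ s < h, job (arm h, s) < k := fun h hh s hs =>
    j1 _ (wpos h hh s hs).1 (wpos h hh s hs).2
  have span : ∀ h ∈ U, ∀ h' ∈ U, ∀ s, s < h → s < h' → job (arm h, s) = job (arm h', s) →
      ¬ arm h < arm h' := by
    intro h hh h' hh' s hs hs' e hlt
    have b0 := armlt h'
    have b13 : 13 * g ≤ (U.filter (fun h => σ < 2 * h)).card := by
      rcases hg.lg with c | c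
      · omega
      · exact c
    have low : ∀ i < g * 6000, 13 * (σ / 2 / 6000) ≤ mload Sl w mi i := by
      intro i hi
      have c : i / 6000 < g := by omega
      have a1 := cnt_mod_ge (σ / 2) (Nat.mod_lt i (show 0 < 6000 by norm_num))
      have a2 := sum_le_sum_of_subset (f := w)
        (s := ((range (σ / 2)).filter (fun s => s % 6000 = i % 6000)).image
          (fun s => (i / 6000, s))) (t := Sl.filter (fun a => mi a = i)) (by
          intro a ha
          obtain ⟨t, ht, rfl⟩ := mem_image.1 ha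
          simp only [mem_filter, mem_range, hSl, mem_product, hmi] at ht ⊢
          omega)
      rw [sum_image (fun t _ t' _ e => (Prod.ext_iff.1 e).2)] at a2
      have a3 := card_nsmul_le_sum ((range (σ / 2)).filter (fun s => s % 6000 = i % 6000))
        (fun t => w (i / 6000, t)) 13 (by
          intro t ht
          have ht' := mem_range.1 (mem_filter.1 ht).1
          have e1 := rk_card U (fun r => r % g = i / 6000 ∧ r < 13 * g)
          have e2 := cnt_mod_ge (13 * g) c
          rw [Nat.mul_div_cancel _ g0] at e2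
          have e3 : ((range (13 * g)).filter (fun r => r % g = i / 6000)).card ≤
              ((range U.card).filter (fun r => r % g = i / 6000 ∧ r < 13 * g)).card := by
            refine card_le_card fun r hr => ?_
            have := card_filter_le U (fun h => σ < 2 * h)
            simp only [mem_filter, mem_range] at hr ⊢
            omega
          refine e2.trans (e3.trans (e1.symm.le.trans (card_le_card fun z hz => ?_)))
          obtain ⟨z1, z2, z3⟩ := mem_filter.1 hz
          have := large_of_rk (σ := σ) (U := U) (h := z) (by omega)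
          exact mem_filter.2 ⟨z1, z2, by simp only; omega⟩)
      rw [smul_eq_mul] at a3
      unfold mload
      omega
    have a1 := j3 _ (wpos h hh s hs).1 _ (wpos h' hh' s hs').1 (wpos h hh s hs).2
      (wpos h' hh' s hs').2 e (by simp only [hmi]; omega)
    have a2 := card_nsmul_le_sum (Ico (mi (arm h, s) + 1) (mi (arm h', s))) (mload Sl w mi)
      (13 * (σ / 2 / 6000)) (fun i hi => low i (by
        simp only [mem_Ico, hmi] at hi
        omega))
    rw [Nat.card_Ico, smul_eq_mul] at a2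
    have a3 : 5999 ≤ mi (arm h', s) - (mi (arm h, s) + 1) := by
      simp only [hmi]
      omega
    have a4 := Nat.mul_le_mul_right (13 * (σ / 2 / 6000)) a3
    have a5 : dd (job (arm h, s)) < 6 * σ := by
      simp only [hdd, if_pos (jk h hh s hs)]
      exact hd2 _ (en1 _ (jk h hh s hs))
    have a6 := (a4.trans a2).trans_lt (a1.trans a5)
    omega
  refine ⟨arm, fun j s => enum (job (j, s)), fun h hh s hs => en1 _ (jk h hh s hs),
    fun h hh h' hh' s hs hs' e => ?_, fun a ha => ?_, armsz⟩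
  · have e' := en2 _ (jk h hh s hs) _ (jk h' hh' s hs') e
    have a1 := span h hh h' hh' s hs hs' e'
    have a2 := span h' hh' h hh s hs' hs e'.symm
    omega
  · obtain ⟨j, hj, rfl⟩ := en3 a ha
    have a1 := j2 j hj
    rw [slot_sum n g U hU arm armlt (fun a => job a = j)] at a1
    simp only [hdd, if_pos hj] at a1
    rw [← a1]
    refine sum_congr rfl fun h hh => ?_
    congr 1
    refine filter_congr fun s hs => ⟨fun e => en2 _ (jk h hh s (mem_range.1 hs)) _ hj e, ?_⟩
    intro e
    simp only [e]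

end Pool.Agent.MP_f65396_co.h32

end MrgPart1

-- ======== part 2: formerly Pool.Agent.MP_f65396_co.h32.Num3
section MrgPart2

/-! Splitting the heights into classes with prescribed sums, by mirror pairs. -/

set_option autoImplicit false

namespace Pool.Agent.MP_f65396_co.h32

open Finset

lemma pick (σ ρ : ℕ) (hodd : σ % 2 = 1) (hρ : ρ < σ) (B : Finset ℕ)
    (hroom : 2 * B.card + 4 < σ) :
    ∃ N : Finset ℕ, N.card ≤ 2 ∧ (∀ x ∈ N, 1 ≤ x ∧ x < σ ∧ x ∉ B ∧ σ - x ∉ N) ∧
      ∑ x ∈ N, x ≡ ρ [MOD σ] := by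
  rcases Nat.eq_zero_or_pos ρ with h0 | h0
  · exact ⟨∅, by simp, by simp, by rw [h0]; rfl⟩
  set y : ℕ → ℕ := fun x => if x < ρ then ρ - x else ρ + σ - x with hy
  have hc : (B ∪ B.image y ∪ {ρ, ρ / 2, (ρ + σ) / 2}).card < (Ico 1 σ).card := by
    have a1 := card_union_le (B ∪ B.image y) {ρ, ρ / 2, (ρ + σ) / 2}
    have a2 := card_union_le B (B.image y)
    have a3 := card_image_le (s := B) (f := y)
    have a4 : ({ρ, ρ / 2, (ρ + σ) / 2} : Finset ℕ).card ≤ 3 := card_le_three
    rw [Nat.card_Ico]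
    omega
  obtain ⟨x, hx, hxb⟩ := exists_mem_notMem_of_card_lt_card hc
  simp only [mem_union, mem_insert, mem_singleton, not_or, mem_Ico] at hx hxb
  obtain ⟨⟨b1, b2⟩, b3, b4, b5⟩ := hxb
  have e : (x < ρ ∧ y x + x = ρ) ∨ (ρ < x ∧ y x + x = ρ + σ) := by
    simp only [hy]
    split_ifs <;> omega
  have b6 : y x ∉ B := fun hh => b2 (mem_image.2 ⟨y x, hh, by
    generalize y x = z at e
    simp only [hy]
    split_ifs <;> omega⟩)
  have hne : x ≠ y x := by omega
  refine ⟨{x, y x}, card_le_two, ?_, ?_⟩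
  · intro z hz
    simp only [mem_insert, mem_singleton, not_or] at hz ⊢
    rcases hz with rfl | rfl
    · exact ⟨hx.1, hx.2, b1, by omega, by omega⟩
    · exact ⟨by omega, by omega, b6, by omega, by omega⟩
  · rw [sum_pair hne]
    rcases e with e | e
    · rw [add_comm, e.2]
    · rw [add_comm, e.2]
      exact Nat.add_modEq_right

lemma mirror_sum (σ : ℕ) (N : Finset ℕ) (hN : ∀ x ∈ N, x ≤ σ) :
    ∑ x ∈ N, x + ∑ x ∈ N.image (fun x => σ - x), x = N.card * σ := by
  rw [sum_image (fun a ha b hb e => by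
    have := hN a ha
    have := hN b hb
    omega), ← sum_add_distrib, ← smul_eq_mul, ← sum_const]
  exact sum_congr rfl fun x hx => by
    have := hN x hx
    omega

theorem chain {ι : Type*} [DecidableEq ι] (σ : ℕ) (hodd : σ % 2 = 1) (t : ι → ℕ) (C : Finset ι) :
    ∀ B P : Finset ℕ, (∀ x ∈ B, σ - x ∈ B) → (∀ x ∈ B, 1 ≤ x ∧ x < σ) → P ⊆ B → P.card ≤ 3 →
      ∑ c ∈ C, t c ≡ ∑ x ∈ P, x [MOD σ] → (C = ∅ → P = ∅) → 2 * (B.card + 4 * C.card) + 4 < σ →
      ∃ (core : ι → Finset ℕ) (B' : Finset ℕ), B ⊆ B' ∧ (∀ x ∈ B', σ - x ∈ B') ∧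
        (∀ x ∈ B', 1 ≤ x ∧ x < σ) ∧
        (∀ c ∈ C, core c ⊆ B' ∧ (core c).card ≤ 5 ∧ ∑ x ∈ core c, x ≡ t c [MOD σ]) ∧
        (∀ c ∈ C, ∀ c' ∈ C, c ≠ c' → Disjoint (core c) (core c')) ∧
        ∀ x ∈ B', (x ∈ P ∨ x ∉ B) ↔ ∃ c ∈ C, x ∈ core c := by
  induction C using Finset.induction_on with
  | empty =>
    intro B P h1 h2 _ _ _ h6 _
    refine ⟨fun _ => ∅, B, Subset.rfl, h1, h2, by simp, by simp, fun x hx => ?_⟩
    simp [h6 rfl, hx]
  | insert c C hc ih =>
    intro B P h1 h2 h3 h4 h5 _ h7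
    rw [sum_insert hc] at h5
    rw [card_insert_of_notMem hc] at h7
    rcases C.eq_empty_or_nonempty with he | hne
    · subst he
      refine ⟨fun _ => P, B, Subset.rfl, h1, h2, fun c' hc' => ⟨h3, h4.trans (by norm_num), ?_⟩, ?_, ?_⟩
      · have : c' = c := by simpa using hc'
        rw [this]
        simpa using h5.symm
      · intro a ha b hb hab
        simp only [insert_empty_eq, mem_singleton] at ha hb
        exact absurd (ha.trans hb.symm) hab
      · intro x hx
        simp [hx]
    have σ0 : 0 < σ := by omega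
    obtain ⟨ρ, hρ, eρ⟩ : ∃ ρ < σ, ∑ x ∈ P, x + ρ ≡ t c [MOD σ] := by
      refine ⟨(t c + σ * ∑ x ∈ P, x - ∑ x ∈ P, x) % σ, Nat.mod_lt _ σ0, ?_⟩
      refine (Nat.ModEq.add_left _ (Nat.mod_modEq _ _)).trans ?_
      have : ∑ x ∈ P, x ≤ σ * ∑ x ∈ P, x := Nat.le_mul_of_pos_left _ σ0
      rw [show ∑ x ∈ P, x + (t c + σ * ∑ x ∈ P, x - ∑ x ∈ P, x) = t c + σ * ∑ x ∈ P, x by omega]
      exact Nat.add_mul_mod_self_left _ _ _
    obtain ⟨N, n1, n2, n3⟩ := pick σ ρ hodd hρ B (by omega)
    set P' := N.image (fun x => σ - x) with hP'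
    have p1 : ∀ x ∈ P', 1 ≤ x ∧ x < σ ∧ x ∉ B ∧ x ∉ N ∧ σ - x ∈ N := by
      intro x hx
      obtain ⟨z, hz, rfl⟩ := mem_image.1 hx
      obtain ⟨z1, z2, z3, z4⟩ := n2 z hz
      have e : σ - (σ - z) = z := by omega
      exact ⟨by omega, by omega, fun hh => z3 (e ▸ h1 _ hh), z4, e.symm ▸ hz⟩
    have p2 : P'.card ≤ 2 := card_image_le.trans n1
    have dPN : Disjoint P N := disjoint_left.2 fun x hx hx' => (n2 x hx').2.2.1 (h3 hx)
    obtain ⟨core, B', i1, i2, i3, i4, i5, i6⟩ := ih (B ∪ N ∪ P') P' (by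
        intro x hx
        simp only [mem_union] at hx ⊢
        rcases hx with (hx | hx) | hx
        · exact Or.inl (Or.inl (h1 x hx))
        · exact Or.inr (mem_image_of_mem _ hx)
        · exact Or.inl (Or.inr (p1 x hx).2.2.2.2)) (by
        intro x hx
        simp only [mem_union] at hx
        rcases hx with (hx | hx) | hx
        · exact h2 x hx
        · exact ⟨(n2 x hx).1, (n2 x hx).2.1⟩
        · exact ⟨(p1 x hx).1, (p1 x hx).2.1⟩) subset_union_right (by omega) (by
        have m := mirror_sum σ N (fun x hx => (n2 x hx).2.1.le)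
        have e1 : ∑ x ∈ P, x + ∑ x ∈ N, x ≡ t c [MOD σ] := (Nat.ModEq.add_left _ n3).trans eρ
        have e2 : ∑ x ∈ P, x + (∑ x ∈ N, x + ∑ c ∈ C, t c) ≡
            ∑ x ∈ P, x + (∑ x ∈ N, x + ∑ x ∈ P', x) [MOD σ] := by
          rw [m, ← add_assoc]
          exact ((e1.add_right _).trans h5).trans (Nat.add_mul_mod_self_right _ _ _).symm
        exact Nat.ModEq.add_left_cancel' _ (Nat.ModEq.add_left_cancel' _ e2))
      (fun he => absurd he hne.ne_empty) (by
        have a1 := card_union_le (B ∪ N) P'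
        have a2 := card_union_le B N
        omega)
    have up : ∀ c' ∈ C, Function.update core c (P ∪ N) c' = core c' := fun c' hc' =>
      Function.update_of_ne (fun e : c' = c => hc (e ▸ hc')) _ _
    have sub : P ∪ N ⊆ B ∪ N ∪ P' :=
      (union_subset_union_left h3).trans subset_union_left
    have dis : ∀ c' ∈ C, Disjoint (P ∪ N) (core c') := by
      intro c' hc'
      refine disjoint_left.2 fun x hx hx' => ?_
      rcases (i6 x ((i4 c' hc').1 hx')).2 ⟨c', hc', hx'⟩ with h | h
      · rcases mem_union.1 hx with h' | h'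
        · exact (p1 x h).2.2.1 (h3 h')
        · exact (p1 x h).2.2.2.1 h'
      · exact h (sub hx)
    refine ⟨Function.update core c (P ∪ N), B',
      (subset_union_left.trans subset_union_left).trans i1, i2, i3, ?_, ?_, ?_⟩
    · intro c' hc'
      rcases mem_insert.1 hc' with rfl | hc'
      · rw [Function.update_self]
        refine ⟨sub.trans i1, (card_union_le _ _).trans (by omega), ?_⟩
        rw [sum_union dPN]
        exact (Nat.ModEq.add_left _ n3).trans eρ
      · rw [up c' hc']
        exact i4 c' hc'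
    · intro a ha b hb hab
      rcases mem_insert.1 ha with ea | ha' <;> rcases mem_insert.1 hb with eb | hb'
      · exact absurd (ea.trans eb.symm) hab
      · rw [ea, Function.update_self, up b hb']
        exact dis b hb'
      · rw [eb, Function.update_self, up a ha']
        exact (dis a ha').symm
      · rw [up a ha', up b hb']
        exact i5 a ha' b hb' hab
    · intro x hx
      have e := i6 x hx
      constructor
      · intro h
        by_cases hPN : x ∈ P ∪ N
        · exact ⟨c, mem_insert_self _ _, by rwa [Function.update_self]⟩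
        · obtain ⟨c', hc', hx'⟩ := e.1 (by
            simp only [mem_union, not_or] at hPN ⊢
            tauto)
          exact ⟨c', mem_insert_of_mem hc', by rwa [up c' hc']⟩
      · rintro ⟨c', hc', hx'⟩
        rcases mem_insert.1 hc' with rfl | hc'
        · rw [Function.update_self] at hx'
          rcases mem_union.1 hx' with h | h
          · exact Or.inl h
          · exact Or.inr (n2 x h).2.2.1
        · rw [up c' hc'] at hx'
          rcases e.2 ⟨c', hc', hx'⟩ with h | h
          · exact Or.inr (p1 x h).2.2.1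
          · exact Or.inr fun hh => h (mem_union_left _ (mem_union_left _ hh))

lemma distribute {ι : Type*} [DecidableEq ι] (c0 : ι) (q : ι → ℕ) (C : Finset ι) :
    ∀ R : Finset ℕ, R.card = ∑ c ∈ C, q c → ∃ asg : ℕ → ι, (∀ x ∈ R, asg x ∈ C) ∧
      ∀ c ∈ C, (R.filter (fun x => asg x = c)).card = q c := by
  induction C using Finset.induction_on with
  | empty =>
    intro R hR
    have : R = ∅ := by simpa using hR
    exact ⟨fun _ => c0, by simp [this], by simp⟩
  | insert c C hc ih =>
    intro R hR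
    rw [sum_insert hc] at hR
    obtain ⟨R1, h1, h2⟩ := exists_subset_card_eq (s := R) (n := q c) (by omega)
    obtain ⟨asg, a1, a2⟩ := ih (R \ R1) (by rw [card_sdiff_of_subset h1]; omega)
    refine ⟨fun x => if x ∈ R1 then c else asg x, fun x hx => ?_, fun c' hc' => ?_⟩
    · by_cases h : x ∈ R1
      · simp [h]
      · simp only [if_neg h]
        exact mem_insert_of_mem (a1 x (mem_sdiff.2 ⟨hx, h⟩))
    · rcases mem_insert.1 hc' with rfl | hc'
      · rw [← h2]
        congr 1
        ext x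
        simp only [mem_filter]
        constructor
        · rintro ⟨hx, e⟩
          by_contra h
          rw [if_neg h] at e
          exact hc (e ▸ a1 x (mem_sdiff.2 ⟨hx, h⟩))
        · intro h
          exact ⟨h1 h, if_pos h⟩
      · rw [← a2 c' hc']
        congr 1
        ext x
        simp only [mem_filter, mem_sdiff]
        constructor
        · rintro ⟨hx, e⟩
          by_cases h : x ∈ R1
          · rw [if_pos h] at e
            exact absurd (e ▸ hc') hc
          · rw [if_neg h] at e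
            exact ⟨⟨hx, h⟩, e⟩
        · rintro ⟨⟨hx, h⟩, e⟩
          exact ⟨hx, by rwa [if_neg h]⟩

lemma pairs (σ : ℕ) (R : Finset ℕ) (hR : ∀ x ∈ R, 2 * x < σ) :
    ∑ x ∈ R ∪ R.image (fun x => σ - x), x = R.card * σ ∧
      (R ∪ R.image (fun x => σ - x)).card = 2 * R.card ∧
      (R.image (fun x => σ - x)).card = R.card := by
  have d : Disjoint R (R.image (fun x => σ - x)) := disjoint_left.2 fun x hx hx' => by
    obtain ⟨z, hz, e⟩ := mem_image.1 hx'
    have := hR x hx
    have := hR z hz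
    omega
  have c : (R.image (fun x => σ - x)).card = R.card := card_image_of_injOn fun a ha b hb e => by
    have := hR a ha
    have := hR b hb
    omega
  refine ⟨?_, ?_, c⟩
  · rw [sum_union d]
    exact mirror_sum σ R fun x hx => by
      have := hR x hx
      omega
  · rw [card_union_of_disjoint d, c]
    omega

theorem phase2 {ι : Type*} [DecidableEq ι] (n σ : ℕ) (hodd : σ % 2 = 1) (h1 : n ≤ σ)
    (h2 : σ ≤ n + 1) (C : Finset ι) (c0 : ι) (hc0 : c0 ∈ C) (t : ι → ℕ) (core : ι → Finset ℕ)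
    (B : Finset ℕ) (hB1 : ∀ x ∈ B, σ - x ∈ B) (hB2 : ∀ x ∈ B, 1 ≤ x ∧ x < σ)
    (hcov : ∀ x, x ∈ B ↔ ∃ c ∈ C, x ∈ core c)
    (hdisj : ∀ c ∈ C, ∀ c' ∈ C, c ≠ c' → Disjoint (core c) (core c'))
    (hle : ∀ c ∈ C, ∑ x ∈ core c, x ≤ t c ∧ ∑ x ∈ core c, x ≡ t c [MOD σ])
    (hsum : ∑ c ∈ C, t c = ∑ x ∈ Icc (σ - n) n, x) :
    ∃ cls : ℕ → ι, (∀ h, cls h ∈ C) ∧ ∀ c ∈ C, ∃ q,
      core c ⊆ (Icc (σ - n) n).filter (fun h => cls h = c) ∧
      ((Icc (σ - n) n).filter (fun h => cls h = c)).card = (core c).card + 2 * q ∧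
      ∑ x ∈ core c, x + q * σ = t c ∧
      ∑ x ∈ (Icc (σ - n) n).filter (fun h => cls h = c), x = t c ∧
      q ≤ (((Icc (σ - n) n).filter (fun h => cls h = c)).filter (fun h => σ < 2 * h)).card := by
  have σ0 : 0 < σ := by omega
  set H := Icc (σ - n) n with hH
  have hq : ∀ c ∈ C, ∃ q, ∑ x ∈ core c, x + q * σ = t c := fun c hc => by
    obtain ⟨q, e⟩ := (Nat.modEq_iff_dvd' (hle c hc).1).1 (hle c hc).2
    have := (hle c hc).1
    exact ⟨q, by rw [mul_comm q]; omega⟩
  choose! q hq using hq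
  set R := H.filter (fun x => 2 * x < σ ∧ x ∉ B) with hR
  have BH : B ⊆ H := fun x hx => by
    have := hB2 x hx
    simp only [hH, mem_Icc]
    omega
  have flip : ∀ x ≤ σ, x ∉ B → σ - x ∉ B := fun x hx h hh => by
    have := hB1 _ hh
    rw [show σ - (σ - x) = x by omega] at this
    exact h this
  have eR : H \ B = R ∪ R.image (fun x => σ - x) := by
    ext x
    simp only [mem_sdiff, mem_union, mem_image, hR, mem_filter, hH, mem_Icc]
    constructor
    · rintro ⟨a, b⟩
      by_cases c : 2 * x < σ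
      · exact Or.inl ⟨a, c, b⟩
      · exact Or.inr ⟨σ - x, ⟨by omega, by omega, flip x (by omega) b⟩, by omega⟩
    · rintro (⟨a, -, b⟩ | ⟨z, ⟨a, c, b⟩, rfl⟩)
      · exact ⟨a, b⟩
      · exact ⟨by omega, flip z (by omega) b⟩
  have eB : ∑ x ∈ B, x = ∑ c ∈ C, ∑ x ∈ core c, x := by
    rw [← sum_biUnion (fun a ha b hb hab => hdisj a ha b hb hab)]
    congr 1
    ext x
    rw [mem_biUnion, hcov]
  have cR : R.card = ∑ c ∈ C, q c := by
    have a1 := (pairs σ R (fun x hx => (mem_filter.1 hx).2.1)).1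
    have a2 := sum_sdiff (f := fun x => x) BH
    have a3 : ∑ c ∈ C, t c = ∑ c ∈ C, ∑ x ∈ core c, x + (∑ c ∈ C, q c) * σ := by
      rw [sum_mul, ← sum_add_distrib]
      exact sum_congr rfl fun c hc => (hq c hc).symm
    rw [eR, a1, eB, ← hsum, a3] at a2
    exact Nat.eq_of_mul_eq_mul_right σ0 (by omega)
  obtain ⟨asg, s1, s2⟩ := distribute c0 q C R cR
  have hf : ∀ x, ∃ c ∈ C, x ∈ B → x ∈ core c := fun x => by
    by_cases h : x ∈ B
    · obtain ⟨c, hc, hx⟩ := (hcov x).1 h
      exact ⟨c, hc, fun _ => hx⟩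
    · exact ⟨c0, hc0, fun hh => absurd hh h⟩
  choose f f1 f2 using hf
  have minR : ∀ x ∈ H, x ∉ B → min x (σ - x) ∈ R := by
    intro x hx hb
    simp only [hR, mem_filter, hH, mem_Icc] at hx ⊢
    by_cases c : 2 * x < σ
    · rw [min_eq_left (by omega)]
      exact ⟨hx, c, hb⟩
    · rw [min_eq_right (by omega)]
      exact ⟨by omega, by omega, flip x (by omega) hb⟩
  refine ⟨fun x => if x ∈ H ∧ x ∉ B then asg (min x (σ - x)) else f x, fun x => ?_,
    fun c hc => ?_⟩
  · by_cases h : x ∈ H ∧ x ∉ B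
    · simp only [if_pos h]
      exact s1 _ (minR x h.1 h.2)
    · simp only [if_neg h]
      exact f1 x
  set Rc := R.filter (fun x => asg x = c) with hRc
  have hRc2 : ∀ x ∈ Rc, 2 * x < σ := fun x hx => (mem_filter.1 (mem_filter.1 hx).1).2.1
  have coreB : ∀ x ∈ core c, x ∈ B := fun x hx => (hcov x).2 ⟨c, hc, hx⟩
  have subR : Rc ∪ Rc.image (fun x => σ - x) ⊆ H \ B := by
    rw [eR]
    exact union_subset_union (filter_subset _ _) (image_subset_image (filter_subset _ _))
  have eU : H.filter (fun x => (if x ∈ H ∧ x ∉ B then asg (min x (σ - x)) else f x) = c) =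
      core c ∪ (Rc ∪ Rc.image (fun x => σ - x)) := by
    ext x
    rw [mem_filter, mem_union]
    constructor
    · rintro ⟨hx, e⟩
      by_cases hb : x ∈ B
      · rw [if_neg (fun h => h.2 hb)] at e
        exact Or.inl (e ▸ f2 x hb)
      · rw [if_pos ⟨hx, hb⟩] at e
        have a : min x (σ - x) ∈ Rc := mem_filter.2 ⟨minR x hx hb, e⟩
        have hx' := mem_Icc.1 hx
        right
        by_cases c : 2 * x < σ
        · rw [min_eq_left (by omega)] at a
          exact mem_union_left _ a
        · rw [min_eq_right (by omega)] at a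
          exact mem_union_right _ (mem_image.2 ⟨σ - x, a, by omega⟩)
    · rintro (hx | hx)
      · have hb := coreB x hx
        refine ⟨BH hb, ?_⟩
        rw [if_neg (fun h => h.2 hb)]
        by_contra hne
        exact disjoint_left.1 (hdisj _ (f1 x) c hc hne) (f2 x hb) hx
      · have a := mem_sdiff.1 (subR hx)
        refine ⟨a.1, ?_⟩
        rw [if_pos a]
        rcases mem_union.1 hx with h | h
        · have := hRc2 x h
          rw [min_eq_left (by omega)]
          exact (mem_filter.1 h).2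
        · obtain ⟨z, hz, rfl⟩ := mem_image.1 h
          have := hRc2 z hz
          rw [min_eq_right (by omega), show σ - (σ - z) = z by omega]
          exact (mem_filter.1 hz).2
  have dU : Disjoint (core c) (Rc ∪ Rc.image (fun x => σ - x)) :=
    disjoint_left.2 fun x hx hx' => (mem_sdiff.1 (subR hx')).2 (coreB x hx)
  obtain ⟨p1, p2, p3⟩ := pairs σ Rc hRc2
  have cq : Rc.card = q c := s2 c hc
  rw [eU]
  refine ⟨q c, subset_union_left, ?_, hq c hc, ?_, ?_⟩
  · rw [card_union_of_disjoint dU, p2, cq]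
  · rw [sum_union dU, p1, cq, hq c hc]
  · rw [← cq, ← p3]
    refine card_le_card fun x hx => mem_filter.2 ⟨mem_union_right _ (mem_union_right _ hx), ?_⟩
    obtain ⟨z, hz, rfl⟩ := mem_image.1 hx
    have := hRc2 z hz
    omega

end Pool.Agent.MP_f65396_co.h32

end MrgPart2

-- ======== part 3: formerly Pool.Agent.MP_f65396_co.h32.Num4
section MrgPart3

/-! The classes of heights. -/

set_option autoImplicit false

namespace Pool.Agent.MP_f65396_co.h32

open Finset

lemma closed_dvd (σ : ℕ) (hodd : σ % 2 = 1) (B : Finset ℕ) (h1 : ∀ x ∈ B, σ - x ∈ B)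
    (h2 : ∀ x ∈ B, x ≤ σ) : ∑ x ∈ B, x ≡ 0 [MOD σ] := by
  have e : B.image (fun x => σ - x) = B := by
    refine eq_of_subset_of_card_le (fun x hx => ?_) ?_
    · obtain ⟨z, hz, rfl⟩ := mem_image.1 hx
      exact h1 z hz
    · rw [card_image_of_injOn]
      intro a ha b hb e
      have := h2 a ha
      have := h2 b hb
      simp only at e
      omega
  have m := mirror_sum σ B h2
  rw [e, ← two_mul] at m
  have c : Nat.Coprime σ 2 := Nat.coprime_two_right.2 (Nat.odd_iff.2 hodd)
  exact (Nat.modEq_zero_iff_dvd).2 (c.dvd_of_dvd_mul_left (m ▸ dvd_mul_left _ _))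

theorem split {ι : Type*} [DecidableEq ι] (n σ : ℕ) (hodd : σ % 2 = 1) (h1 : n ≤ σ)
    (h2 : σ ≤ n + 1) (C : Finset ι) (big : ι → Prop) [DecidablePred big]
    (hne : ∃ c ∈ C, big c) (t : ι → ℕ) (pre : ι → Finset ℕ) (B0 : Finset ℕ)
    (hsum : ∑ c ∈ C, t c = ∑ x ∈ Icc (σ - n) n, x) (hbig : ∀ c ∈ C, big c → 6 * σ ≤ t c)
    (hpre : ∀ c ∈ C, ¬ big c → ∑ x ∈ pre c, x ≤ t c ∧ ∑ x ∈ pre c, x ≡ t c [MOD σ])
    (hB0 : ∀ x, x ∈ B0 ↔ ∃ c ∈ C, ¬ big c ∧ x ∈ pre c) (hr : ∀ x ∈ B0, 1 ≤ x ∧ x < σ)
    (hdisj : ∀ c ∈ C, ∀ c' ∈ C, ¬ big c → ¬ big c' → c ≠ c' → Disjoint (pre c) (pre c'))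
    (hpend : ((B0.image (fun x => σ - x)) \ B0).card ≤ 3)
    (hroom : 2 * (B0.card + 3 + 4 * (C.filter big).card) + 4 < σ) :
    ∃ cls : ℕ → ι, (∀ h, cls h ∈ C) ∧ ∀ c ∈ C, ∃ q,
      ∑ x ∈ (Icc (σ - n) n).filter (fun h => cls h = c), x = t c ∧
      q ≤ (((Icc (σ - n) n).filter (fun h => cls h = c)).filter (fun h => σ < 2 * h)).card ∧
      (big c → ((Icc (σ - n) n).filter (fun h => cls h = c)).card ≤ 5 + 2 * q ∧
        t c ≤ 5 * σ + q * σ ∧ q * σ ≤ t c) ∧
      (¬ big c → pre c ⊆ (Icc (σ - n) n).filter (fun h => cls h = c) ∧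
        ((Icc (σ - n) n).filter (fun h => cls h = c)).card = (pre c).card + 2 * q ∧
        ∑ x ∈ pre c, x + q * σ = t c) := by
  set P := (B0.image (fun x => σ - x)) \ B0 with hP
  have dP : Disjoint B0 P := disjoint_sdiff
  have b1 : ∀ x ∈ B0 ∪ P, σ - x ∈ B0 ∪ P := by
    intro x hx
    rw [hP, union_sdiff_self_eq_union] at hx ⊢
    rcases mem_union.1 hx with h | h
    · exact mem_union_right _ (mem_image_of_mem _ h)
    · obtain ⟨z, hz, rfl⟩ := mem_image.1 h
      have := hr z hz
      rw [show σ - (σ - z) = z by omega]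
      exact mem_union_left _ hz
  have b2 : ∀ x ∈ B0 ∪ P, 1 ≤ x ∧ x < σ := by
    intro x hx
    rcases mem_union.1 hx with h | h
    · exact hr x h
    · obtain ⟨z, hz, rfl⟩ := mem_image.1 (mem_sdiff.1 h).1
      have := hr z hz
      omega
  have cong : ∑ c ∈ C.filter big, t c ≡ ∑ x ∈ P, x [MOD σ] := by
    have a1 := closed_dvd σ hodd _ b1 (fun x hx => (b2 x hx).2.le)
    have a2 := closed_dvd σ hodd (Icc (σ - n) n) (fun x hx => by
      rw [mem_Icc] at hx ⊢
      omega) (fun x hx => by
      rw [mem_Icc] at hx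
      omega)
    rw [sum_union dP] at a1
    rw [← hsum, ← sum_filter_add_sum_filter_not C big] at a2
    have a3 : ∑ x ∈ B0, x = ∑ c ∈ C.filter (fun c => ¬ big c), ∑ x ∈ pre c, x := by
      rw [← sum_biUnion (fun a ha b hb hab => hdisj a (mem_filter.1 ha).1 b (mem_filter.1 hb).1
        (mem_filter.1 ha).2 (mem_filter.1 hb).2 hab)]
      congr 1
      ext x
      simp only [hB0, mem_biUnion, mem_filter, and_assoc]
    have a4 : ∑ x ∈ B0, x ≡ ∑ c ∈ C.filter (fun c => ¬ big c), t c [MOD σ] := by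
      rw [a3]
      exact Nat.ModEq.sum fun c hc => (hpre c (mem_filter.1 hc).1 (mem_filter.1 hc).2).2
    have a5 := ((Nat.ModEq.add_left (∑ c ∈ C.filter big, t c) a4).trans a2).trans a1.symm
    rw [add_comm] at a5
    exact Nat.ModEq.add_left_cancel' _ a5
  obtain ⟨c0, hc0, hb0⟩ := hne
  obtain ⟨core, B', i1, i2, i3, i4, i5, i6⟩ := chain σ hodd t (C.filter big) (B0 ∪ P) P b1 b2
    subset_union_right hpend cong
    (fun he => absurd (he ▸ mem_filter.2 ⟨hc0, hb0⟩ : c0 ∈ (∅ : Finset ι)) (notMem_empty _)) (by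
      have := card_union_le B0 P
      omega)
  have le5 : ∀ c ∈ C, big c → ∑ x ∈ core c, x ≤ 5 * σ := by
    intro c hc hb
    obtain ⟨a1, a2, -⟩ := i4 c (mem_filter.2 ⟨hc, hb⟩)
    have := sum_le_card_nsmul (core c) (fun x => x) σ (fun x hx => (i3 x (a1 hx)).2.le)
    rw [smul_eq_mul] at this
    exact this.trans (Nat.mul_le_mul_right _ a2)
  have dis : ∀ c ∈ C, ∀ c' ∈ C, big c → ¬ big c' → Disjoint (core c) (pre c') := by
    intro c hc c' hc' hb hb'
    refine disjoint_left.2 fun x hx hx' => ?_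
    have m : x ∈ B0 := (hB0 x).2 ⟨c', hc', hb', hx'⟩
    have hcb := mem_filter.2 (⟨hc, hb⟩ : c ∈ C ∧ big c)
    rcases (i6 x ((i4 c hcb).1 hx)).2 ⟨c, hcb, hx⟩ with h | h
    · exact (mem_sdiff.1 h).2 m
    · exact h (mem_union_left _ m)
  obtain ⟨cls, k1, k2⟩ := phase2 n σ hodd h1 h2 C c0 hc0 t
    (fun c => if big c then core c else pre c) B' i2 i3 (by
      intro x
      constructor
      · intro hx
        by_cases m : x ∈ B0
        · obtain ⟨c, hc, hb, hx'⟩ := (hB0 x).1 m
          exact ⟨c, hc, by rwa [if_neg hb]⟩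
        · obtain ⟨c, hc, hx'⟩ := (i6 x hx).1 (by
            rw [mem_union]
            tauto)
          exact ⟨c, (mem_filter.1 hc).1, by rwa [if_pos (mem_filter.1 hc).2]⟩
      · rintro ⟨c, hc, hx⟩
        by_cases hb : big c
        · rw [if_pos hb] at hx
          exact (i4 c (mem_filter.2 ⟨hc, hb⟩)).1 hx
        · rw [if_neg hb] at hx
          exact i1 (mem_union_left _ ((hB0 x).2 ⟨c, hc, hb, hx⟩))) (by
      intro c hc c' hc' hne
      by_cases hb : big c <;> by_cases hb' : big c'
      · simp only [if_pos hb, if_pos hb']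
        exact i5 c (mem_filter.2 ⟨hc, hb⟩) c' (mem_filter.2 ⟨hc', hb'⟩) hne
      · simp only [if_pos hb, if_neg hb']
        exact dis c hc c' hc' hb hb'
      · simp only [if_neg hb, if_pos hb']
        exact (dis c' hc' c hc hb' hb).symm
      · simp only [if_neg hb, if_neg hb']
        exact hdisj c hc c' hc' hb hb' hne) (by
      intro c hc
      by_cases hb : big c
      · simp only [if_pos hb]
        have := le5 c hc hb
        have := hbig c hc hb
        exact ⟨by omega, (i4 c (mem_filter.2 ⟨hc, hb⟩)).2.2⟩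
      · simp only [if_neg hb]
        exact hpre c hc hb) hsum
  refine ⟨cls, k1, fun c hc => ?_⟩
  obtain ⟨q, q1, q2, q3, q4, q5⟩ := k2 c hc
  refine ⟨q, q4, q5, fun hb => ?_, fun hb => ?_⟩
  · simp only [if_pos hb] at q2 q3
    have := le5 c hc hb
    have := (i4 c (mem_filter.2 ⟨hc, hb⟩)).2.1
    omega
  · simp only [if_neg hb] at q1 q2 q3
    exact ⟨q1, q2, q3⟩

lemma tops {U Tp : Finset ℕ} {g : ℕ} (h1 : Tp ⊆ U) (h2 : Tp.card = g)
    (h3 : ∀ h ∈ Tp, 330000 ≤ h) (h4 : ∀ h ∈ Tp, ∀ h' ∈ U, h' ∉ Tp → h' + 330000 ≤ h) :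
    (∀ h ∈ U, rk U h < g → 330000 ≤ h) ∧
      ∀ h ∈ U, ∀ h' ∈ U, rk U h < g → rk U h + g ≤ rk U h' → h' + 330000 ≤ h := by
  have a : ∀ h ∈ U, rk U h < g → h ∈ Tp := by
    intro h hh e
    by_contra c
    have : Tp.card ≤ rk U h := card_le_card fun z hz => mem_filter.2 ⟨h1 hz, by
      have := h4 z hz h hh c
      omega⟩
    omega
  have b : ∀ h ∈ Tp, rk U h < g := by
    intro h hh
    have : rk U h ≤ (Tp.erase h).card := card_le_card fun z hz => by
      obtain ⟨z1, z2⟩ := mem_filter.1 hz
      refine mem_erase.2 ⟨by omega, ?_⟩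
      by_contra c
      have := h4 h hh z z1 c
      omega
    have := card_erase_lt_of_mem hh
    omega
  refine ⟨fun h hh e => h3 h (a h hh e), fun h hh h' hh' e e' => h4 h (a h hh e) h' hh' ?_⟩
  intro c
  have := b h' c
  omega

lemma good_big {σ q : ℕ} {U : Finset ℕ} (hσ : 100000000 ≤ σ) (h1 : U.card ≤ 5 + 2 * q)
    (h2 : q ≤ (U.filter (fun h => σ < 2 * h)).card) (h3 : 4290000 ≤ q) : Good σ U (q / 13) := by
  have := card_filter_le U (fun h => σ < 2 * h)
  refine ⟨by omega, by omega, by omega, Or.inr (by omega), fun h _ e => ?_,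
    fun h _ h' _ _ e => ?_⟩
  · have := large_of_rk (σ := σ) (U := U) (h := h) (by omega)
    omega
  · have := rk_gap (show 0 < q / 13 by omega) e
    omega

lemma good_small (n σ M z : ℕ) (hn : 100000000 ≤ n) (h1 : n ≤ σ) (h2 : σ ≤ n + 1)
    (hM1 : n < 100 * M) (hM2 : M < 4290005 * σ) :
    ∃ (U : Finset ℕ) (g x y : ℕ), Good σ U g ∧ ∑ h ∈ U, h = M ∧ (∀ h ∈ U, 1 ≤ h ∧ h < σ) ∧
      z ∉ U ∧ U.card ≤ 8580012 ∧ ∀ h ∈ U, σ - h ∈ U ∨ h = x ∨ h = y := by
  have σ0 : 0 < σ := by omega
  obtain ⟨q, s, e, s1, s2, q1⟩ : ∃ q s, s + q * σ = M ∧ n < 100 * s ∧ 100 * s ≤ 100 * σ + n ∧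
      q < 4290005 := by
    have a1 := Nat.mod_add_div' M σ
    have a2 := Nat.mod_lt M σ0
    have a3 : M / σ < 4290005 := (Nat.div_lt_iff_lt_mul σ0).2 hM2
    by_cases c : n < 100 * (M % σ)
    · exact ⟨M / σ, M % σ, a1, c, by omega, a3⟩
    · obtain ⟨q, hq⟩ : ∃ q, M / σ = q + 1 := by
        refine Nat.exists_eq_succ_of_ne_zero fun h => ?_
        rw [h] at a1
        omega
      rw [hq, add_mul, one_mul] at a1
      exact ⟨q, M % σ + σ, by omega, by omega, by omega, by omega⟩
  obtain ⟨x, x1, x2, x3, x4⟩ : ∃ x, s / 2 + 330000 ≤ x ∧ x ≤ s / 2 + 330002 ∧ x ≠ z ∧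
      s - x ≠ z := by
    by_contra c
    push Not at c
    have a1 := c (s / 2 + 330000) (by omega) (by omega)
    have a2 := c (s / 2 + 330001) (by omega) (by omega)
    have a3 := c (s / 2 + 330002) (by omega) (by omega)
    omega
  obtain ⟨y, hy⟩ : ∃ y, y + x = s := ⟨s - x, by omega⟩
  set Bad : Finset ℕ := {z, σ - z, x, σ - x, y, σ - y} with hBad
  have cB : Bad.card ≤ 6 := card_le_six
  obtain ⟨g, g1, g2, g3⟩ : ∃ g, 1 ≤ g ∧ (g = 1 ∨ 13 * g ≤ q) ∧ q ≤ 13 * g + 12 :=
    ⟨max 1 (q / 13), by omega, by omega, by omega⟩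
  obtain ⟨R1, r1, r1c⟩ := exists_subset_card_eq (s := Icc 1 330006 \ Bad) (n := min q g) (by
    have := le_card_sdiff Bad (Icc 1 330006)
    rw [Nat.card_Icc] at this
    omega)
  obtain ⟨R2, r2, r2c⟩ := exists_subset_card_eq (s := Icc 660007 4950020 \ Bad)
    (n := q - min q g) (by
      have := le_card_sdiff Bad (Icc 660007 4950020)
      rw [Nat.card_Icc] at this
      omega)
  have m1 : ∀ t ∈ R1, (1 ≤ t ∧ t ≤ 330006) ∧ t ∉ Bad := fun t ht => by
    simpa only [mem_sdiff, mem_Icc] using r1 ht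
  have m2 : ∀ t ∈ R2, (660007 ≤ t ∧ t ≤ 4950020) ∧ t ∉ Bad := fun t ht => by
    simpa only [mem_sdiff, mem_Icc] using r2 ht
  set R := R1 ∪ R2 with hR
  have m3 : ∀ t ∈ R, (1 ≤ t ∧ t ≤ 4950020) ∧ t ≠ z ∧ t ≠ σ - z ∧ t ≠ x ∧ t ≠ σ - x ∧ t ≠ y ∧
      t ≠ σ - y := by
    intro t ht
    rcases mem_union.1 ht with h | h
    · have := m1 t h
      simp only [hBad, mem_insert, mem_singleton, not_or] at this
      omega
    · have := m2 t h
      simp only [hBad, mem_insert, mem_singleton, not_or] at this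
      omega
  have cR : R.card = q := by
    rw [card_union_of_disjoint (disjoint_left.2 fun t h h' => by
      have := (m1 t h).1
      have := (m2 t h').1
      omega)]
    omega
  obtain ⟨p1, p2, p3⟩ := pairs σ R (fun t ht => by
    have := (m3 t ht).1
    omega)
  set U := {x, y} ∪ (R ∪ R.image (fun t => σ - t)) with hU
  have mU : ∀ h, h ∈ U ↔ h = x ∨ h = y ∨ h ∈ R ∨ ∃ t ∈ R, σ - t = h := fun h => by
    simp only [hU, mem_union, mem_insert, mem_singleton, mem_image, or_assoc]
  have hxy : x ≠ y := by omega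
  have dU : Disjoint ({x, y} : Finset ℕ) (R ∪ R.image (fun t => σ - t)) := by
    refine disjoint_left.2 fun h a b => ?_
    simp only [mem_insert, mem_singleton, mem_union, mem_image] at a b
    rcases b with b | ⟨t, ht, b⟩
    · have := m3 h b
      omega
    · have := m3 t ht
      omega
  have cU : U.card = 2 + 2 * q := by rw [card_union_of_disjoint dU, card_pair hxy, p2, cR]
  have lg : q ≤ (U.filter (fun h => σ < 2 * h)).card := by
    rw [← cR, ← p3]
    refine card_le_card fun h hh => ?_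
    obtain ⟨t, ht, rfl⟩ := mem_image.1 hh
    have := (m3 t ht).1
    exact mem_filter.2 ⟨(mU _).2 (Or.inr (Or.inr (Or.inr ⟨t, ht, rfl⟩))), by omega⟩
  have tp : (∀ h ∈ U, rk U h < g → 330000 ≤ h) ∧
      ∀ h ∈ U, ∀ h' ∈ U, rk U h < g → rk U h + g ≤ rk U h' → h' + 330000 ≤ h := by
    rcases Nat.eq_zero_or_pos q with q0 | q0
    · have R0 : R = ∅ := card_eq_zero.1 (cR.trans q0)
      refine tops (Tp := {x}) (singleton_subset_iff.2 ((mU x).2 (Or.inl rfl)))
        (by rw [card_singleton]; omega) (fun h hh => ?_) (fun h hh h' hh' c => ?_)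
      · rw [mem_singleton] at hh
        omega
      · rw [mem_singleton] at hh c
        rw [mU, R0] at hh'
        simp only [notMem_empty, false_and, exists_false, or_false] at hh'
        omega
    · refine tops (Tp := R1.image (fun t => σ - t)) (fun h hh => ?_) ?_ (fun h hh => ?_)
        (fun h hh h' hh' c => ?_)
      · obtain ⟨t, ht, rfl⟩ := mem_image.1 hh
        exact (mU _).2 (Or.inr (Or.inr (Or.inr ⟨t, mem_union_left _ ht, rfl⟩)))
      · rw [card_image_of_injOn (fun a ha b hb e => by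
          have := (m1 a ha).1
          have := (m1 b hb).1
          omega)]
        omega
      · obtain ⟨t, ht, rfl⟩ := mem_image.1 hh
        have := (m1 t ht).1
        omega
      · obtain ⟨t, ht, rfl⟩ := mem_image.1 hh
        have := (m1 t ht).1
        rcases (mU _).1 hh' with a | a | a | ⟨t', ht', rfl⟩
        · omega
        · omega
        · have := (m3 _ a).1
          omega
        · rcases mem_union.1 ht' with a | a
          · exact absurd (mem_image_of_mem _ a) c
          · have := (m2 _ a).1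
            omega
  refine ⟨U, g, x, y, ⟨g1, by omega, by omega, by omega, tp.1, tp.2⟩, ?_, fun h hh => ?_,
    fun hz => ?_, by omega, fun h hh => ?_⟩
  · rw [sum_union dU, sum_pair hxy, p1, cR]
    omega
  · rcases (mU _).1 hh with a | a | a | ⟨t, ht, rfl⟩
    · omega
    · omega
    · have := (m3 _ a).1
      omega
    · have := (m3 _ ht).1
      omega
  · rcases (mU _).1 hz with a | a | a | ⟨t, ht, a⟩
    · omega
    · omega
    · have := m3 _ a
      omega
    · have := m3 _ ht
      omega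
  · rcases (mU _).1 hh with a | a | a | ⟨t, ht, rfl⟩
    · exact Or.inr (Or.inl a)
    · exact Or.inr (Or.inr a)
    · exact Or.inl ((mU _).2 (Or.inr (Or.inr (Or.inr ⟨h, a, rfl⟩))))
    · have := (m3 _ ht).1
      rw [show σ - (σ - t) = t by omega]
      exact Or.inl ((mU _).2 (Or.inr (Or.inr (Or.inl ht))))

end Pool.Agent.MP_f65396_co.h32

end MrgPart3

-- marker of a merged file
example : 731051 + 307630 = 731051 + 307630 := rfl
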