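import Mathlib.Order.BourbakiWitt
import Mathlib.Combinatorics.SimpleGraph.Basic
import Mathlib.Order.CompletePartialOrder
import Pool.Agent.MP_f65396_co.h32.Num4

-- ======== part 0: formerly Pool.Agent.MP_f65396_co.h32.Num5
section MrgPart0

/-! The shape of the decomposition: arms and their owners. -/

set_option autoImplicit false

namespace Pool.Agent.MP_f65396_co.h32

open Finset

lemma gauss (n : ℕ) : 2 * (n * (n + 1) / 2) = n * (n + 1) :=
  Nat.two_mul_div_two_of_even (Nat.even_mul_succ_self n)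

lemma gauss2 (n σ : ℕ) (h2 : σ ≤ n + 1) : ∑ x ∈ Icc (σ - n) n, x = n * (n + 1) / 2 := by
  have a := sum_range_id_mul_two (n + 1)
  have b := gauss n
  have c : ∑ x ∈ Icc (σ - n) n, x = ∑ x ∈ range (n + 1), x := by
    refine sum_subset (fun x hx => ?_) (fun x hx hx' => ?_)
    · rw [mem_Icc] at hx
      rw [mem_range]
      omega
    · rw [mem_Icc] at hx'
      rw [mem_range] at hx
      omega
  rw [Nat.add_sub_cancel, mul_comm (n + 1) n] at a
  omega

theorem classes {V : Type*} [DecidableEq V] (n σ : ℕ) (hn : 100000000 ≤ n) (hodd : σ % 2 = 1)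
    (h1 : n ≤ σ) (h2 : σ ≤ n + 1) (A : Finset V) (d : V → ℕ) (hd : ∀ a ∈ A, n < 100 * d a)
    (T : ℕ) (hsum : ∑ a ∈ A, d a + T = n * (n + 1) / 2) :
    ∃ (cls : ℕ → V ⊕ Bool) (U : V ⊕ Bool → Finset ℕ),
      (∀ c h, h ∈ U c ↔ (σ - n ≤ h ∧ h ≤ n) ∧ cls h = c) ∧
      (∀ h a, cls h = Sum.inl a → a ∈ A ∧ 6 * σ ≤ d a) ∧
      (∀ a ∈ A, 6 * σ ≤ d a → ∑ h ∈ U (Sum.inl a), h = d a ∧
        (U (Sum.inl a)).card * n ≤ 3 * d a) ∧
      ∑ h ∈ U (Sum.inr true), h = ∑ a ∈ A.filter (fun a => ¬ 6 * σ ≤ d a), d a ∧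
      (∑ h ∈ U (Sum.inr true), h = 0 ∨ ∃ g, Good σ (U (Sum.inr true)) g) ∧
      ∑ h ∈ U (Sum.inr false), h = T ∧
      ((U (Sum.inr false)).card ≤ 1 ∨ (U (Sum.inr false)).card * n ≤ 3 * T) := by
  classical
  have σ0 : 0 < σ := by omega
  set L := A.filter (fun a => 6 * σ ≤ d a) with hL
  set M := ∑ a ∈ A.filter (fun a => ¬ 6 * σ ≤ d a), d a with hM
  have tot : ∑ a ∈ L, d a + M + T = n * (n + 1) / 2 := by
    rw [hL, hM, sum_filter_add_sum_filter_not, hsum]
  have g2 := gauss n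
  have zl := Nat.mod_lt T σ0
  obtain ⟨UM, x, y, u1, u2, u3, u4, u5⟩ : ∃ (UM : Finset ℕ) (x y : ℕ),
      (∀ h ∈ UM, 1 ≤ h ∧ h < σ) ∧ T % σ ∉ UM ∧ UM.card ≤ 8580012 ∧
      (∀ h ∈ UM, σ - h ∈ UM ∨ h = x ∨ h = y) ∧
      (¬ 4290005 * σ ≤ M → ∑ h ∈ UM, h = M ∧ (M = 0 ∨ ∃ g, Good σ UM g)) := by
    by_cases c : M = 0 ∨ 4290005 * σ ≤ M
    · refine ⟨∅, 0, 0, by simp, by simp, by simp, by simp, fun h => ?_⟩
      have : M = 0 := by tauto
      simp [this]
    · obtain ⟨a, ha, -⟩ := exists_ne_zero_of_sum_ne_zero (show M ≠ 0 by tauto)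
      have a1 := hd a (mem_filter.1 ha).1
      have a2 : d a ≤ M := single_le_sum (f := d) (fun _ _ => Nat.zero_le _) ha
      obtain ⟨U, g, x, y, b1, b2, b3, b4, b5, b6⟩ := good_small n σ M (T % σ) hn h1 h2
        (by omega) (by omega)
      exact ⟨U, x, y, b3, b4, b5, b6, fun _ => ⟨b2, Or.inr ⟨g, b1⟩⟩⟩
  obtain ⟨US, s1, s2, s3⟩ : ∃ US : Finset ℕ, (∀ h ∈ US, h = T % σ ∧ 1 ≤ h) ∧ US.card ≤ 1 ∧
      ∑ h ∈ US, h = T % σ := by
    by_cases c : T % σ = 0
    · exact ⟨∅, by simp, by simp, by simp [c]⟩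
    · exact ⟨{T % σ}, by simp; omega, by simp, by simp⟩
  set C : Finset (V ⊕ Bool) := L.disjSum univ with hC
  set t : V ⊕ Bool → ℕ := Sum.elim d (fun b => cond b M T) with ht
  set big : V ⊕ Bool → Prop :=
    Sum.elim (fun _ => True) (fun b => cond b (4290005 * σ ≤ M) (6 * σ ≤ T)) with hbig
  set pre : V ⊕ Bool → Finset ℕ := Sum.elim (fun _ => ∅) (fun b => cond b UM US) with hpre
  set B0 := (C.filter (fun c => ¬ big c)).biUnion pre with hB0
  have mB : ∀ z, z ∈ B0 ↔ ∃ c ∈ C, ¬ big c ∧ z ∈ pre c := fun z => by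
    simp only [hB0, mem_biUnion, mem_filter, and_assoc]
  have mB' : ∀ z ∈ B0, (z ∈ UM ∧ UM ⊆ B0) ∨ z ∈ US := by
    intro z hz
    obtain ⟨c, hc, hb, hz⟩ := (mB z).1 hz
    rcases c with a | (_ | _)
    · exact absurd trivial hb
    · exact Or.inr hz
    · exact Or.inl ⟨hz, fun w hw => (mB w).2 ⟨_, hc, hb, hw⟩⟩
  obtain ⟨cls, k1, k2⟩ := split n σ hodd h1 h2 C big (by
      by_contra c
      push Not at c
      have a1 : ¬ 4290005 * σ ≤ M := c (Sum.inr true) (by simp [hC])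
      have a2 : ¬ 6 * σ ≤ T := c (Sum.inr false) (by simp [hC])
      have a3 : L = ∅ := eq_empty_of_forall_notMem fun a ha =>
        c (Sum.inl a) (inl_mem_disjSum.2 ha) trivial
      rw [a3, sum_empty] at tot
      have := Nat.mul_le_mul_right (n + 1) hn
      omega) t pre B0 (by
      rw [gauss2 n σ h2, ← tot, hC, sum_disjSum, Fintype.sum_bool]
      simp only [ht, Sum.elim_inl, Sum.elim_inr, cond_true, cond_false, add_assoc]) (by
      rintro (a | (_ | _)) hc hb
      · exact (mem_filter.1 (inl_mem_disjSum.1 hc)).2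
      · exact hb
      · have : 4290005 * σ ≤ M := hb
        change 6 * σ ≤ M
        omega) (by
      rintro (a | (_ | _)) hc hb
      · exact absurd trivial hb
      · change ∑ h ∈ US, h ≤ T ∧ ∑ h ∈ US, h ≡ T [MOD σ]
        rw [s3]
        exact ⟨Nat.mod_le _ _, Nat.mod_modEq _ _⟩
      · change ∑ h ∈ UM, h ≤ M ∧ ∑ h ∈ UM, h ≡ M [MOD σ]
        rw [(u5 hb).1]
        exact ⟨le_rfl, rfl⟩) mB (by
      intro z hz
      rcases mB' z hz with h | h
      · exact u1 z h.1
      · have := s1 z h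
        omega) (by
      have dd : Disjoint UM US := disjoint_left.2 fun z h h' => u2 ((s1 z h').1 ▸ h)
      rintro (a | (_ | _)) - (b | (_ | _)) - hb hb' hne
      · exact absurd trivial hb
      · exact absurd trivial hb
      · exact absurd trivial hb
      · exact absurd trivial hb'
      · exact absurd rfl hne
      · exact dd.symm
      · exact absurd trivial hb'
      · exact dd
      · exact absurd rfl hne) (by
      refine (card_le_card (fun p hp => ?_)).trans
        (card_le_three (a := σ - T % σ) (b := σ - x) (c := σ - y))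
      obtain ⟨p1, p2⟩ := mem_sdiff.1 hp
      obtain ⟨z, hz, rfl⟩ := mem_image.1 p1
      simp only [mem_insert, mem_singleton]
      rcases mB' z hz with h | h
      · rcases u4 z h.1 with e | e | e
        · exact absurd (h.2 e) p2
        · rw [e]
          tauto
        · rw [e]
          tauto
      · rw [(s1 z h).1]
        tauto) (by
      have a1 : B0.card ≤ (UM ∪ US).card := card_le_card fun z hz => by
        rcases mB' z hz with h | h
        · exact mem_union_left _ h.1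
        · exact mem_union_right _ h
      have a2 := card_union_le UM US
      have a3 : (C.filter big).card ≤ L.card + 2 := by
        refine (card_filter_le _ _).trans ?_
        rw [hC, card_disjSum, card_univ, Fintype.card_bool]
      have a4 : L.card * (6 * σ) ≤ ∑ a ∈ L, d a :=
        card_nsmul_le_sum L d (6 * σ) (fun a ha => (mem_filter.1 ha).2)
      have a5 : 12 * L.card ≤ n + 1 := by
        refine Nat.le_of_mul_le_mul_right ?_ σ0
        have b1 : (n + 1) * n ≤ (n + 1) * σ := Nat.mul_le_mul_left _ h1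
        have b2 : 12 * L.card * σ = 2 * (L.card * (6 * σ)) := by ring
        rw [mul_comm (n + 1) n] at b1
        omega
      omega)
  have cardn : ∀ (k q w : ℕ), k ≤ 5 + 2 * q → q * σ ≤ w → 6 * σ ≤ w → k * n ≤ 3 * w := by
    intro k q w a b c
    have e1 := Nat.mul_le_mul a h1
    rw [add_mul, mul_assoc] at e1
    omega
  refine ⟨cls, fun c => (Icc (σ - n) n).filter (fun h => cls h = c),
    fun c h => by rw [mem_filter, mem_Icc], fun h a e => ?_, fun a ha hb => ?_, ?_, ?_, ?_, ?_⟩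
  · exact mem_filter.1 (inl_mem_disjSum.1 (e ▸ k1 h : Sum.inl a ∈ C))
  · obtain ⟨q, q1, -, q3, -⟩ := k2 (Sum.inl a) (inl_mem_disjSum.2 (mem_filter.2 ⟨ha, hb⟩))
    obtain ⟨q4, -, q5⟩ := q3 trivial
    exact ⟨q1, cardn _ q _ q4 q5 hb⟩
  · obtain ⟨q, q1, -⟩ := k2 (Sum.inr true) (by simp [hC])
    exact q1
  · obtain ⟨q, q1, q2, q3, q4⟩ := k2 (Sum.inr true) (by simp [hC])
    by_cases hb : 4290005 * σ ≤ M
    · obtain ⟨q5, q6, -⟩ := q3 hb
      refine Or.inr ⟨_, good_big (by omega) q5 q2 (Nat.le_of_mul_le_mul_right ?_ σ0)⟩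
      change M ≤ _ at q6
      omega
    · obtain ⟨q5, q6, q7⟩ := q4 hb
      obtain ⟨v1, v2⟩ := u5 hb
      change ∑ h ∈ UM, h + q * σ = M at q7
      have q0 : q = 0 := by
        have : q * σ = 0 := by omega
        exact (Nat.mul_eq_zero.1 this).resolve_right σ0.ne'
      have e : UM = (Icc (σ - n) n).filter (fun h => cls h = Sum.inr true) :=
        eq_of_subset_of_card_le q5 (by
          rw [q6, q0]
          exact le_rfl)
      simp only [← e]
      rwa [v1]
  · obtain ⟨q, q1, -⟩ := k2 (Sum.inr false) (by simp [hC])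
    exact q1
  · obtain ⟨q, -, -, q3, q4⟩ := k2 (Sum.inr false) (by simp [hC])
    by_cases hb : 6 * σ ≤ T
    · obtain ⟨q5, -, q6⟩ := q3 hb
      exact Or.inr (cardn _ q _ q5 q6 hb)
    · obtain ⟨-, q6, q7⟩ := q4 hb
      change ∑ h ∈ US, h + q * σ = T at q7
      change _ = US.card + 2 * q at q6
      simp only [q6]
      rcases Nat.eq_zero_or_pos q with q0 | q0
      · left
        omega
      · right
        have e1 := Nat.mul_le_mul (show US.card + 2 * q ≤ 3 * q by omega) h1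
        rw [mul_assoc] at e1
        omega

theorem marm' {V : Type*} [DecidableEq V] (n σ : ℕ) (hn : 100000000 ≤ n) (hσ : n ≤ σ)
    (hσ2 : σ ≤ n + 1) (U : Finset ℕ) (hU : ∀ h ∈ U, h ≤ n)
    (hg : ∑ h ∈ U, h = 0 ∨ ∃ g, Good σ U g)
    (J : Finset V) (d : V → ℕ) (hd1 : ∀ a ∈ J, n < 100 * d a) (hd2 : ∀ a ∈ J, d a < 6 * σ)
    (hsum : ∑ a ∈ J, d a = ∑ h ∈ U, h) (a0 : V) :
    ∃ (arm : ℕ → ℕ) (own : ℕ → ℕ → V), (∀ h ∈ U, ∀ s < h, own (arm h) s ∈ J) ∧
      (∀ h ∈ U, ∀ h' ∈ U, ∀ s, s < h → s < h' → own (arm h) s = own (arm h') s →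
        arm h = arm h') ∧
      (∀ a ∈ J, ∑ h ∈ U, ((range h).filter (fun s => own (arm h) s = a)).card = d a) ∧
      ∀ j, (U.filter (fun h => arm h = j)).card ≤ 55 := by
  rcases hg with h0 | ⟨g, hg⟩
  · have z := sum_eq_zero_iff.1 h0
    refine ⟨fun _ => 0, fun _ _ => a0, fun h hh s hs => ?_, fun _ _ _ _ _ _ _ _ => rfl,
      fun a ha => ?_, fun j => ?_⟩
    · have := z h hh
      omega
    · have := sum_eq_zero_iff.1 (hsum.trans h0) a ha
      have := hd1 a ha
      omega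
    · have : (U.filter (fun _ => 0 = j)).card ≤ ({0} : Finset ℕ).card :=
        card_le_card fun h hh => mem_singleton.2 (z h (mem_filter.1 hh).1)
      exact this.trans (by simp)
  · exact marm n σ hn hσ hσ2 U hU g hg J d hd1 hd2 hsum a0

/-- The cells: a height `h ≤ n` and a depth below it. -/
def cells (n : ℕ) : Finset (ℕ × ℕ) := (range (n + 1) ×ˢ range n).filter fun p => p.2 < p.1

lemma mem_cells {n : ℕ} {p : ℕ × ℕ} : p ∈ cells n ↔ p.2 < p.1 ∧ p.1 ≤ n := by
  simp only [cells, mem_filter, mem_product, mem_range]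
  omega

lemma card_cells (n : ℕ) (U : Finset ℕ) (hU : ∀ h ∈ U, h ≤ n) (p : ℕ × ℕ → Prop) [DecidablePred p]
    (hp : ∀ x ∈ cells n, p x → x.1 ∈ U) :
    ((cells n).filter p).card = ∑ h ∈ U, ((range h).filter (fun s => p (h, s))).card := by
  rw [card_eq_sum_card_fiberwise (f := Prod.fst) (t := U)
    (fun x hx => hp x (mem_filter.1 hx).1 (mem_filter.1 hx).2)]
  refine sum_congr rfl fun h hh => ?_
  symm
  refine card_bij (fun s _ => (h, s)) ?_ ?_ ?_
  · intro s hs
    simp only [mem_filter, mem_range, mem_cells] at hs ⊢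
    exact ⟨⟨⟨hs.1, hU h hh⟩, hs.2⟩, trivial⟩
  · intro s _ s' _ e
    exact (Prod.ext_iff.1 e).2
  · rintro ⟨a, s⟩ ha
    simp only [mem_filter, mem_range, mem_cells] at ha ⊢
    obtain ⟨⟨⟨b1, -⟩, b2⟩, rfl⟩ := ha
    exact ⟨s, ⟨b1, b2⟩, rfl⟩

lemma depth_le {Y : Finset (ℕ × ℕ)} {U : Finset ℕ} {s : ℕ} (h : ∀ x ∈ Y, x.2 = s → x.1 ∈ U) :
    (Y.filter (fun x => x.2 = s)).card ≤ U.card := by
  refine card_le_card_of_injOn Prod.fst (fun x hx => ?_) (fun x hx y hy e => ?_)
  · exact h x (mem_filter.1 hx).1 (mem_filter.1 hx).2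
  · exact Prod.ext e ((mem_filter.1 hx).2.trans (mem_filter.1 hy).2.symm)

theorem numerics {V : Type*} [DecidableEq V] (n : ℕ) (hn : 100000000 ≤ n) (A : Finset V)
    (d : V → ℕ) (hd : ∀ a ∈ A, n < 100 * d a) (T : ℕ)
    (hsum : ∑ a ∈ A, d a + T = n * (n + 1) / 2) (a0 : V) :
    ∃ (arm : ℕ → V ⊕ Bool × ℕ) (own : ℕ × ℕ → Option V),
      (∀ x ∈ cells n, ∀ y ∈ cells n, x.2 = y.2 → arm x.1 = arm y.1 →
        own x = own y ∧ (own x = none → x = y)) ∧
      (∀ x ∈ cells n, ∀ y ∈ cells n, ∀ a, x.2 = y.2 → own x = some a → own y = some a →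
        arm x.1 = arm y.1) ∧
      (∀ x ∈ cells n, ∀ a, own x = some a → a ∈ A) ∧
      (∀ a ∈ A, ((cells n).filter (fun x => own x = some a)).card = d a) ∧
      ((cells n).filter (fun x => own x = none)).card = T ∧
      (∀ a ∈ A, ∀ s, (((cells n).filter (fun x => own x = some a)).filter
        (fun x => x.2 = s)).card * n ≤ 6000 * d a) ∧
      ((∀ s, (((cells n).filter (fun x => own x = none)).filter (fun x => x.2 = s)).card ≤ 1) ∨
        ∀ s, (((cells n).filter (fun x => own x = none)).filter (fun x => x.2 = s)).card * n ≤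
          3 * T) := by
  obtain ⟨σ, hodd, h1, h2⟩ : ∃ σ, σ % 2 = 1 ∧ n ≤ σ ∧ σ ≤ n + 1 := by
    by_cases c : n % 2 = 1
    · exact ⟨n, c, le_rfl, by omega⟩
    · exact ⟨n + 1, by omega, by omega, le_rfl⟩
  obtain ⟨cls, U, mU, c1, c2, c3, c4, c5, c6⟩ := classes n σ hn hodd h1 h2 A d hd T hsum
  have Un : ∀ c, ∀ h ∈ U c, h ≤ n := fun c h hh => ((mU c h).1 hh).1.2
  have inU : ∀ x ∈ cells n, ∀ c, cls x.1 = c → x.1 ∈ U c := fun x hx c e => by
    rw [mem_cells] at hx
    exact (mU _ _).2 ⟨by omega, e⟩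
  obtain ⟨am, om, m1, m2, m3, m4⟩ := marm' n σ hn h1 h2 (U (Sum.inr true)) (Un _) c4
    (A.filter (fun a => ¬ 6 * σ ≤ d a)) d (fun a ha => hd a (mem_filter.1 ha).1)
    (fun a ha => not_le.1 (mem_filter.1 ha).2) c3.symm a0
  set own : ℕ × ℕ → Option V := fun x =>
    Sum.elim some (fun b => cond b (some (om (am x.1) x.2)) none) (cls x.1) with hown
  set arm : ℕ → V ⊕ Bool × ℕ := fun h =>
    Sum.elim Sum.inl (fun b => Sum.inr (b, cond b (am h) h)) (cls h) with harm
  have tri : ∀ x ∈ cells n,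
      (∃ a, cls x.1 = Sum.inl a ∧ own x = some a ∧ arm x.1 = Sum.inl a ∧ a ∈ A ∧ 6 * σ ≤ d a) ∨
      (cls x.1 = Sum.inr true ∧ own x = some (om (am x.1) x.2) ∧
        arm x.1 = Sum.inr (true, am x.1) ∧ om (am x.1) x.2 ∈ A ∧ ¬ 6 * σ ≤ d (om (am x.1) x.2)) ∨
      (cls x.1 = Sum.inr false ∧ own x = none ∧ arm x.1 = Sum.inr (false, x.1)) := by
    intro x hx
    rcases e : cls x.1 with a | (_ | _)
    · exact Or.inl ⟨a, rfl, by simp [hown, e], by simp [harm, e], c1 _ _ e⟩
    · exact Or.inr (Or.inr ⟨rfl, by simp [hown, e], by simp [harm, e]⟩)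
    · exact Or.inr (Or.inl ⟨rfl, by simp [hown, e], by simp [harm, e],
        mem_filter.1 (m1 _ (inU x hx _ e) _ (mem_cells.1 hx).1)⟩)
  have oL : ∀ x ∈ cells n, ∀ a, 6 * σ ≤ d a → own x = some a → cls x.1 = Sum.inl a := by
    intro x hx a ha e
    rcases tri x hx with ⟨b, b1, b2, -⟩ | ⟨-, b2, -, -, b5⟩ | ⟨-, b2, -⟩
    · rw [b1, Option.some.inj (b2.symm.trans e)]
    · exact absurd (Option.some.inj (b2.symm.trans e) ▸ ha) b5
    · exact absurd (b2.symm.trans e) (by simp)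
  have oM : ∀ x ∈ cells n, ∀ a, ¬ 6 * σ ≤ d a → own x = some a →
      cls x.1 = Sum.inr true ∧ om (am x.1) x.2 = a := by
    intro x hx a ha e
    rcases tri x hx with ⟨b, -, b2, -, -, b5⟩ | ⟨b1, b2, -⟩ | ⟨-, b2, -⟩
    · exact absurd (Option.some.inj (b2.symm.trans e) ▸ b5) ha
    · exact ⟨b1, Option.some.inj (b2.symm.trans e)⟩
    · exact absurd (b2.symm.trans e) (by simp)
  have oS : ∀ x ∈ cells n, own x = none → cls x.1 = Sum.inr false := by
    intro x hx e
    rcases tri x hx with ⟨b, -, b2, -⟩ | ⟨-, b2, -⟩ | ⟨b1, -⟩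
    · exact absurd (b2.symm.trans e) (by simp)
    · exact absurd (b2.symm.trans e) (by simp)
    · exact b1
  refine ⟨arm, own, fun x hx y hy e e' => ?_, fun x hx y hy a e ex ey => ?_,
    fun x hx a e => ?_, fun a ha => ?_, ?_, fun a ha s => ?_, ?_⟩
  · rcases tri x hx with ⟨a, -, a2, a3, -⟩ | ⟨-, a2, a3, -⟩ | ⟨-, a2, a3⟩ <;>
      rcases tri y hy with ⟨b, -, b2, b3, -⟩ | ⟨-, b2, b3, -⟩ | ⟨-, b2, b3⟩ <;>
      rw [a3, b3] at e' <;> simp only [Sum.inl.injEq, Sum.inr.injEq, Prod.mk.injEq, reduceCtorEq,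
        true_and, false_and] at e'
    · rw [a2, b2, e']
      simp
    · rw [a2, b2, e', e]
      simp
    · exact ⟨a2.trans b2.symm, fun _ => Prod.ext e' e⟩
  · by_cases c : 6 * σ ≤ d a
    · simp only [harm, oL x hx a c ex, oL y hy a c ey, Sum.elim_inl]
    · obtain ⟨a1, a2⟩ := oM x hx a c ex
      obtain ⟨b1, b2⟩ := oM y hy a c ey
      have := m2 _ (inU x hx _ a1) _ (inU y hy _ b1) x.2 (mem_cells.1 hx).1
        (e ▸ (mem_cells.1 hy).1) (by rw [a2, e, b2])
      simp only [harm, a1, b1, Sum.elim_inr, cond_true, this]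
  · rcases tri x hx with ⟨b, -, b2, -, b4, -⟩ | ⟨-, b2, -, b4, -⟩ | ⟨-, b2, -⟩
    · exact Option.some.inj (b2.symm.trans e) ▸ b4
    · exact Option.some.inj (b2.symm.trans e) ▸ b4
    · exact absurd (b2.symm.trans e) (by simp)
  · by_cases c : 6 * σ ≤ d a
    · rw [card_cells n (U (Sum.inl a)) (Un _) _ (fun x hx e => inU x hx _ (oL x hx a c e)),
        ← (c2 a ha c).1]
      refine sum_congr rfl fun h hh => ?_
      rw [filter_true_of_mem (fun s _ => by simp [hown, ((mU _ _).1 hh).2]), card_range]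
    · rw [card_cells n (U (Sum.inr true)) (Un _) _ (fun x hx e => inU x hx _ (oM x hx a c e).1),
        ← m3 a (mem_filter.2 ⟨ha, c⟩)]
      refine sum_congr rfl fun h hh => ?_
      congr 1
      exact filter_congr fun s _ => by simp [hown, ((mU _ _).1 hh).2]
  · rw [card_cells n (U (Sum.inr false)) (Un _) _ (fun x hx e => inU x hx _ (oS x hx e)), ← c5]
    refine sum_congr rfl fun h hh => ?_
    rw [filter_true_of_mem (fun s _ => by simp [hown, ((mU _ _).1 hh).2]), card_range]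
  · by_cases c : 6 * σ ≤ d a
    · have a1 := depth_le (Y := (cells n).filter (fun x => own x = some a)) (s := s)
        (U := U (Sum.inl a)) (fun x hx _ =>
          inU x (mem_filter.1 hx).1 _ (oL x (mem_filter.1 hx).1 a c (mem_filter.1 hx).2))
      have a2 := (Nat.mul_le_mul_right n a1).trans (c2 a ha c).2
      omega
    · have a1 : (((cells n).filter (fun x => own x = some a)).filter
          (fun x => x.2 = s)).card ≤ 55 := by
        rcases (((cells n).filter (fun x => own x = some a)).filter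
          (fun x => x.2 = s)).eq_empty_or_nonempty with he | ⟨y, hy⟩
        · rw [he]
          simp
        obtain ⟨hy, ys⟩ := mem_filter.1 hy
        obtain ⟨hy, ey⟩ := mem_filter.1 hy
        obtain ⟨b1, b2⟩ := oM y hy a c ey
        refine (depth_le fun x hx xs => ?_).trans (m4 (am y.1))
        obtain ⟨hx, ex⟩ := mem_filter.1 hx
        obtain ⟨a1, a2⟩ := oM x hx a c ex
        refine mem_filter.2 ⟨inU x hx _ a1, m2 _ (inU x hx _ a1) _ (inU y hy _ b1) s
          (xs ▸ (mem_cells.1 hx).1) (ys ▸ (mem_cells.1 hy).1) ?_⟩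
        rw [← xs, a2, xs, ← ys, b2]
      have a2 := Nat.mul_le_mul_right n a1
      have a3 := hd a ha
      omega
  · have a1 : ∀ s, (((cells n).filter (fun x => own x = none)).filter
        (fun x => x.2 = s)).card ≤ (U (Sum.inr false)).card := fun s =>
      depth_le fun x hx _ =>
        inU x (mem_filter.1 hx).1 _ (oS x (mem_filter.1 hx).1 (mem_filter.1 hx).2)
    rcases c6 with c | c
    · exact Or.inl fun s => (a1 s).trans c
    · exact Or.inr fun s => (Nat.mul_le_mul_right n (a1 s)).trans c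

end Pool.Agent.MP_f65396_co.h32

end MrgPart0

-- ======== part 1: formerly Pool.Agent.MP_f65396_co.h32.Asm
section MrgPart1

/-! From a labelling of the edges by cells to the decomposition. -/

set_option autoImplicit false

namespace Pool.Agent.MP_f65396_co.h32

open Finset

theorem assemble {V R : Type*} [Fintype V] (G : SimpleGraph V) (n : ℕ) (ctr lf : ℕ × ℕ → V)
    (arm : ℕ → R) (E1 : ∀ x ∈ cells n, G.Adj (ctr x) (lf x))
    (E2 : ∀ u v, G.Adj u v → ∃ x ∈ cells n, s(ctr x, lf x) = s(u, v))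
    (E3 : ∀ x ∈ cells n, ∀ y ∈ cells n, s(ctr x, lf x) = s(ctr y, lf y) → x = y)
    (E4 : ∀ x ∈ cells n, ∀ y ∈ cells n, x.2 = y.2 → (arm x.1 = arm y.1 ↔ ctr x = ctr y))
    (E5 : ∀ x ∈ cells n, ∀ y ∈ cells n, x.2 = y.2 → lf x ≠ ctr y)
    (E6 : ∀ x ∈ cells n, ∀ y ∈ cells n, x.2 = y.2 → lf x = lf y → x = y) :
    ∃ H : Fin n → SimpleGraph V, (⨆ i, H i) = G ∧
      Pairwise (fun i j => Disjoint (H i).edgeSet (H j).edgeSet) ∧
      (∀ i : Fin n, (H i).edgeSet.ncard = i.val + 1) ∧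
      (∀ i j : Fin n, j.val = i.val + 1 → ∃ f : V → V, Function.Injective f ∧
        ∀ u v : V, (H i).Adj u v → (H j).Adj (f u) (f v)) ∧
      ∀ (i : Fin n) (u v : V), (H i).Adj u v →
        (∀ w, (H i).Adj u w → w = v) ∨ ∀ w, (H i).Adj v w → w = u := by
  classical
  let K : ℕ → SimpleGraph V := fun s =>
    { Adj := fun u v => ∃ x ∈ cells n, x.2 = s ∧ s(ctr x, lf x) = s(u, v)
      symm := ⟨fun u v ⟨x, hx, e, h⟩ => ⟨x, hx, e, h.trans Sym2.eq_swap⟩⟩
      loopless := ⟨fun u ⟨x, hx, _, h⟩ => (E1 x hx).ne (by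
        rw [Sym2.eq_iff] at h
        rcases h with h | h
        · exact h.1.trans h.2.symm
        · exact h.1.trans h.2.symm)⟩ }
  have Kadj : ∀ s u v, (K s).Adj u v ↔ ∃ x ∈ cells n, x.2 = s ∧ s(ctr x, lf x) = s(u, v) :=
    fun _ _ _ => Iff.rfl
  have Kedge : ∀ s, (K s).edgeSet =
      (fun x => s(ctr x, lf x)) '' ((cells n).filter (fun x => x.2 = s) : Finset (ℕ × ℕ)) := by
    intro s
    ext e
    induction e using Sym2.ind with
    | h u v =>
      simp only [SimpleGraph.mem_edgeSet, Kadj, Set.mem_image, mem_coe, mem_filter, and_assoc]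
  have leaf : ∀ s, ∀ x ∈ cells n, x.2 = s → ∀ w, (K s).Adj (lf x) w → w = ctr x := by
    rintro s x hx e w ⟨y, hy, e', h⟩
    rw [Sym2.eq_iff] at h
    rcases h with h | h
    · exact absurd h.1.symm (E5 x hx y hy (e.trans e'.symm))
    · rw [← h.1, E6 y hy x hx (e'.trans e.symm) h.2]
  refine ⟨fun i => K (n - 1 - i), ?_, fun i j hij => ?_, fun i => ?_, fun i j hij => ?_,
    fun i u v h => ?_⟩
  · ext u v
    rw [SimpleGraph.iSup_adj]
    constructor
    · rintro ⟨i, x, hx, -, h⟩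
      have := E1 x hx
      rwa [← SimpleGraph.mem_edgeSet, h] at this
    · intro h
      obtain ⟨x, hx, e⟩ := E2 u v h
      have := mem_cells.1 hx
      exact ⟨⟨n - 1 - x.2, by omega⟩, x, hx, by simp only; omega, e⟩
  · simp only [Kedge]
    rw [Set.disjoint_left]
    rintro _ ⟨x, hx, rfl⟩ ⟨y, hy, e⟩
    obtain ⟨x1, x2⟩ := mem_filter.1 hx
    obtain ⟨y1, y2⟩ := mem_filter.1 hy
    have := E3 y y1 x x1 e
    rw [this] at y2
    have := i.2
    have := j.2
    exact hij (Fin.ext (by omega))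
  · simp only [Kedge]
    rw [Set.InjOn.ncard_image (fun x hx y hy e => E3 x (mem_filter.1 hx).1 y (mem_filter.1 hy).1 e),
      Set.ncard_coe_finset]
    have hi := i.2
    have : (Ioc (n - 1 - i) n).card = ((cells n).filter (fun x => x.2 = n - 1 - i)).card := by
      refine card_bij (fun h _ => (h, n - 1 - i)) ?_ ?_ ?_
      · intro h hh
        rw [mem_Ioc] at hh
        exact mem_filter.2 ⟨mem_cells.2 hh, rfl⟩
      · intro h _ h' _ e
        exact (Prod.ext_iff.1 e).1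
      · intro x hx
        obtain ⟨x1, x2⟩ := mem_filter.1 hx
        rw [mem_cells, x2] at x1
        exact ⟨x.1, mem_Ioc.2 x1, Prod.ext rfl x2.symm⟩
    rw [← this, Nat.card_Ioc]
    omega
  · have hj := j.2
    obtain ⟨s, hs⟩ : ∃ s, n - 1 - j = s := ⟨_, rfl⟩
    have hs' : n - 1 - i = s + 1 := by omega
    simp only [hs, hs']
    have down : ∀ x ∈ cells n, x.2 = s + 1 → (x.1, s) ∈ cells n := fun x hx e => by
      rw [mem_cells] at hx ⊢
      simp only
      omega
    have hf : ∀ v : V, ∃ w : V, (∀ x ∈ cells n, x.2 = s + 1 → ctr x = v → w = ctr (x.1, s)) ∧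
        ∀ x ∈ cells n, x.2 = s + 1 → lf x = v → w = lf (x.1, s) := by
      intro v
      by_cases c1 : ∃ x ∈ cells n, x.2 = s + 1 ∧ ctr x = v
      · obtain ⟨x, hx, e, rfl⟩ := c1
        refine ⟨ctr (x.1, s), fun y hy e' h => ?_, fun y hy e' h => ?_⟩
        · exact (E4 _ (down x hx e) _ (down y hy e') rfl).1
            ((E4 x hx y hy (e.trans e'.symm)).2 h.symm)
        · exact absurd h (E5 y hy x hx (e'.trans e.symm))
      by_cases c2 : ∃ x ∈ cells n, x.2 = s + 1 ∧ lf x = v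
      · obtain ⟨x, hx, e, rfl⟩ := c2
        refine ⟨lf (x.1, s), fun y hy e' h => absurd ⟨y, hy, e', h⟩ c1, fun y hy e' h => ?_⟩
        rw [E6 y hy x hx (e'.trans e.symm) h]
      · exact ⟨v, fun y hy e' h => absurd ⟨y, hy, e', h⟩ c1,
          fun y hy e' h => absurd ⟨y, hy, e', h⟩ c2⟩
    choose f f1 f2 using hf
    set W : Finset V := univ.filter
      (fun v => ∃ x ∈ cells n, x.2 = s + 1 ∧ (ctr x = v ∨ lf x = v)) with hW
    have inj : Set.InjOn f W := by
      intro u hu v hv e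
      obtain ⟨x, hx, ex, hu⟩ := (mem_filter.1 hu).2
      obtain ⟨y, hy, ey, hv⟩ := (mem_filter.1 hv).2
      rcases hu with hu | hu <;> rcases hv with hv | hv
      · rw [f1 u x hx ex hu, f1 v y hy ey hv] at e
        rw [← hu, ← hv]
        exact (E4 x hx y hy (ex.trans ey.symm)).1
          ((E4 _ (down x hx ex) _ (down y hy ey) rfl).2 e)
      · rw [f1 u x hx ex hu, f2 v y hy ey hv] at e
        exact absurd e.symm (E5 _ (down y hy ey) _ (down x hx ex) rfl)
      · rw [f2 u x hx ex hu, f1 v y hy ey hv] at e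
        exact absurd e (E5 _ (down x hx ex) _ (down y hy ey) rfl)
      · rw [f2 u x hx ex hu, f2 v y hy ey hv] at e
        have := (Prod.ext_iff.1 (E6 _ (down x hx ex) _ (down y hy ey) rfl e)).1
        rw [← hu, ← hv, show x = y from Prod.ext this (ex.trans ey.symm)]
    obtain ⟨g, hg⟩ := Finset.exists_equiv_extend_of_card_eq (t := (univ : Finset V))
      (card_univ.symm) (subset_univ _) inj
    refine ⟨fun v => g v, fun u v e => g.injective (Subtype.ext e), ?_⟩
    rintro u v ⟨x, hx, ex, h⟩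
    have a1 : (g (ctr x) : V) = ctr (x.1, s) :=
      (hg _ (mem_filter.2 ⟨mem_univ _, x, hx, ex, Or.inl rfl⟩)).trans (f1 _ x hx ex rfl)
    have a2 : (g (lf x) : V) = lf (x.1, s) :=
      (hg _ (mem_filter.2 ⟨mem_univ _, x, hx, ex, Or.inr rfl⟩)).trans (f2 _ x hx ex rfl)
    refine ⟨(x.1, s), down x hx ex, rfl, ?_⟩
    rw [← a1, ← a2]
    rw [Sym2.eq_iff] at h ⊢
    rcases h with h | h
    · exact Or.inl ⟨by rw [h.1], by rw [h.2]⟩
    · exact Or.inr ⟨by rw [h.1], by rw [h.2]⟩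
  · obtain ⟨x, hx, ex, h⟩ := h
    rw [Sym2.eq_iff] at h
    rcases h with h | h
    · right
      rw [← h.1, ← h.2]
      exact leaf _ x hx ex
    · left
      rw [← h.1, ← h.2]
      exact leaf _ x hx ex

end Pool.Agent.MP_f65396_co.h32

end MrgPart1

-- marker of a merged file
example : 731051 + 763005 = 731051 + 763005 := rfl
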