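import Mathlib.Data.Fintype.Perm
import Mathlib.Algebra.Order.Star.Real

/-! A lopsided local lemma in counting form, and its use for permutations that keep a partition. -/

set_option autoImplicit false

namespace Pool.Agent.MP_f65396_co.h32

open Finset

section abstract

variable {Ω E : Type*} [Fintype Ω]

open Classical in
/-- The outcomes that avoid every event of `S`. -/
noncomputable def avoid (hit : E → Ω → Prop) (S : Finset E) : Finset Ω :=
  univ.filter fun ω => ∀ B ∈ S, ¬ hit B ω

open Classical in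
/-- The outcomes that avoid every event of `S` and meet `A`. -/
noncomputable def meet (hit : E → Ω → Prop) (A : E) (S : Finset E) : Finset Ω :=
  (avoid hit S).filter fun ω => hit A ω

lemma mem_avoid (hit : E → Ω → Prop) (S : Finset E) (ω : Ω) :
    ω ∈ avoid hit S ↔ ∀ B ∈ S, ¬ hit B ω := by
  simp [avoid]

lemma mem_meet (hit : E → Ω → Prop) (A : E) (S : Finset E) (ω : Ω) :
    ω ∈ meet hit A S ↔ (∀ B ∈ S, ¬ hit B ω) ∧ hit A ω := by
  simp [meet, mem_avoid]

lemma avoid_union_bound (hit : E → Ω → Prop) (S1 S2 S : Finset E)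
    (h : ∀ B ∈ S, B ∈ S1 ∨ B ∈ S2) :
    ((avoid hit S2).card : ℝ) ≤ (avoid hit S).card + ∑ B ∈ S1, ((meet hit B S2).card : ℝ) := by
  classical
  have hsub : avoid hit S2 ⊆ avoid hit S ∪ S1.biUnion (fun B => meet hit B S2) := by
    intro ω hω
    rw [mem_avoid] at hω
    by_cases hh : ∀ B ∈ S, ¬ hit B ω
    · exact mem_union_left _ ((mem_avoid _ _ _).2 hh)
    · push Not at hh
      obtain ⟨B, hB, hBω⟩ := hh
      rcases h B hB with h1 | h2
      · exact mem_union_right _ (mem_biUnion.2 ⟨B, h1, (mem_meet _ _ _ _).2 ⟨hω, hBω⟩⟩)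
      · exact absurd hBω (hω B h2)
  have h1 := card_le_card hsub
  have h2 := card_union_le (avoid hit S) (S1.biUnion (fun B => meet hit B S2))
  have h3 := card_biUnion_le (s := S1) (t := fun B => meet hit B S2)
  have h4 : (avoid hit S2).card ≤ (avoid hit S).card + ∑ B ∈ S1, (meet hit B S2).card := by omega
  exact_mod_cast h4

theorem lopsided [Nonempty Ω] [DecidableEq E] (hit : E → Ω → Prop) (p : E → ℝ) (conf : E → E → Prop)
    [DecidableRel conf] (S0 : Finset E)
    (hp : ∀ A ∈ S0, 0 ≤ p A) (hp2 : ∀ A ∈ S0, 2 * p A < 1)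
    (hlop : ∀ A ∈ S0, ∀ S ⊆ S0, (∀ B ∈ S, ¬ conf A B) →
      ((meet hit A S).card : ℝ) ≤ p A * (avoid hit S).card)
    (hsum : ∀ A ∈ S0, ∑ B ∈ S0.filter (conf A), p B ≤ 1 / 4) :
    ∃ ω, ∀ B ∈ S0, ¬ hit B ω := by
  classical
  have key : ∀ S : Finset E, S ⊆ S0 → ∀ A ∈ S0,
      ((meet hit A S).card : ℝ) ≤ 2 * p A * (avoid hit S).card := by
    intro S
    induction S using Finset.strongInduction with
    | H S ih =>
      intro hS A hA
      by_cases hc : ∀ B ∈ S, ¬ conf A B
      · have h1 := hlop A hA S hS hc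
        have h2 : 0 ≤ p A * ((avoid hit S).card : ℝ) := mul_nonneg (hp A hA) (Nat.cast_nonneg _)
        linarith
      · push Not at hc
        obtain ⟨B0, hB0, hcB0⟩ := hc
        set S1 := S.filter (conf A) with hS1
        set S2 := S.filter (fun B => ¬ conf A B) with hS2
        have hS2S : S2 ⊂ S := by
          refine ⟨filter_subset _ _, fun hh => ?_⟩
          have := (mem_filter.1 (hh hB0)).2
          exact this hcB0
        have hS20 : S2 ⊆ S0 := hS2S.1.trans hS
        have h1 := hlop A hA S2 hS20 (fun B hB => (mem_filter.1 hB).2)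
        have h2 := avoid_union_bound hit S1 S2 S (fun B hB => by
          by_cases h : conf A B
          · exact Or.inl (mem_filter.2 ⟨hB, h⟩)
          · exact Or.inr (mem_filter.2 ⟨hB, h⟩))
        have h3 : ∑ B ∈ S1, ((meet hit B S2).card : ℝ) ≤
            ∑ B ∈ S1, 2 * p B * (avoid hit S2).card :=
          sum_le_sum fun B hB => ih S2 hS2S hS20 B (hS (mem_filter.1 hB).1)
        have h4 : ∑ B ∈ S1, p B ≤ 1 / 4 := by
          refine le_trans (sum_le_sum_of_subset_of_nonneg ?_ ?_) (hsum A hA)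
          · exact filter_subset_filter _ hS
          · intro B hB _
            exact hp B (mem_filter.1 hB).1
        have h5 : ∑ B ∈ S1, 2 * p B * ((avoid hit S2).card : ℝ) =
            2 * (∑ B ∈ S1, p B) * (avoid hit S2).card := by
          rw [mul_sum, sum_mul]
        have h6 : (0 : ℝ) ≤ (avoid hit S2).card := Nat.cast_nonneg _
        have h7 : ((avoid hit S2).card : ℝ) ≤ 2 * (avoid hit S).card := by nlinarith
        have h8 : ((meet hit A S).card : ℝ) ≤ (meet hit A S2).card := by
          have : meet hit A S ⊆ meet hit A S2 := by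
            intro ω hω
            rw [mem_meet] at hω ⊢
            exact ⟨fun B hB => hω.1 B (hS2S.1 hB), hω.2⟩
          exact_mod_cast card_le_card this
        have h9 := hp A hA
        nlinarith
  have pos : ∀ S : Finset E, S ⊆ S0 → (0 : ℝ) < (avoid hit S).card := by
    intro S
    induction S using Finset.induction_on with
    | empty =>
      intro _
      have : (avoid hit (∅ : Finset E)).Nonempty :=
        ⟨Classical.arbitrary Ω, (mem_avoid _ _ _).2 (by simp)⟩
      exact_mod_cast this.card_pos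
    | insert A S hAS ih =>
      intro hS
      have hS' : S ⊆ S0 := (subset_insert _ _).trans hS
      have hA : A ∈ S0 := hS (mem_insert_self _ _)
      have h1 := avoid_union_bound hit {A} S (insert A S) (fun B hB => by simpa using hB)
      rw [sum_singleton] at h1
      have h2 := key S hS' A hA
      have h3 := ih hS'
      have h4 := hp2 A hA
      nlinarith
  have h := pos S0 Subset.rfl
  have h' : 0 < (avoid hit S0).card := by exact_mod_cast h
  obtain ⟨ω, hω⟩ := card_pos.1 h'
  exact ⟨ω, (mem_avoid _ _ _).1 hω⟩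

end abstract

lemma sum_le_of_inj {α β : Type*} [DecidableEq β] (s : Finset α) (t : Finset β) (f : α → β)
    (g : α → ℝ) (h : β → ℝ) (hf : ∀ a ∈ s, f a ∈ t) (hinj : Set.InjOn f s)
    (hgh : ∀ a ∈ s, g a ≤ h (f a)) (h0 : ∀ b ∈ t, 0 ≤ h b) :
    ∑ a ∈ s, g a ≤ ∑ b ∈ t, h b := by
  calc ∑ a ∈ s, g a ≤ ∑ a ∈ s, h (f a) := sum_le_sum hgh
    _ = ∑ b ∈ s.image f, h b := (sum_image hinj).symm
    _ ≤ ∑ b ∈ t, h b := by
      refine sum_le_sum_of_subset_of_nonneg ?_ (fun b hb _ => h0 b hb)
      intro b hb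
      obtain ⟨a, ha, rfl⟩ := mem_image.1 hb
      exact hf a ha

section perm

variable {X P K : Type*} [Fintype X] [DecidableEq X] [DecidableEq P] [DecidableEq K]

/-- The part of `x`. -/
def part (π : X → P) (x : X) : Finset X := univ.filter fun y => π y = π x

/-- Two arcs that no permutation contains together, or that overlap in one end only. -/
def clash (α β : X × X) : Prop := (α.1 = β.1 ∧ α.2 ≠ β.2) ∨ (α.1 ≠ β.1 ∧ α.2 = β.2)

instance (α β : X × X) : Decidable (clash α β) := by unfold clash; infer_instance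

/-- The bad events: two adjacent points sent to places of one colour. -/
def events (π : X → P) (κ : X → K) (adj : X → X → Prop) [DecidableRel adj] :
    Finset ((X × X) × (X × X)) :=
  univ.filter fun A => adj A.1.1 A.2.1 ∧ π A.1.2 = π A.1.1 ∧ π A.2.2 = π A.2.1 ∧
    κ A.1.2 = κ A.2.2 ∧ π A.1.1 ≠ π A.2.1

/-- The weight of an event. -/
noncomputable def wt (π : X → P) (A : (X × X) × (X × X)) : ℝ :=
  1 / (((part π A.1.1).card : ℝ) * (part π A.2.1).card)

omit [DecidableEq X] in
lemma mem_part (π : X → P) (x y : X) : y ∈ part π x ↔ π y = π x := by simp [part]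

omit [DecidableEq X] in
lemma part_pos (π : X → P) (x : X) : (1 : ℝ) ≤ (part π x).card := by
  have : 0 < (part π x).card := card_pos.2 ⟨x, (mem_part π x x).2 rfl⟩
  exact_mod_cast this

omit [DecidableEq X] in
lemma part_congr (π : X → P) {x y : X} (h : π x = π y) : part π x = part π y := by
  simp [part, h]

omit [DecidableEq X] in
lemma mem_events (π : X → P) (κ : X → K) (adj : X → X → Prop) [DecidableRel adj]
    (A : (X × X) × (X × X)) : A ∈ events π κ adj ↔ adj A.1.1 A.2.1 ∧ π A.1.2 = π A.1.1 ∧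
      π A.2.2 = π A.2.1 ∧ κ A.1.2 = κ A.2.2 ∧ π A.1.1 ≠ π A.2.1 := by
  simp [events]

omit [DecidableEq X] in
lemma wt_nonneg (π : X → P) (A : (X × X) × (X × X)) : 0 ≤ wt π A := by
  unfold wt; positivity

omit [Fintype X] [DecidableEq P] in
lemma arc_back (π : X → P) (τ : Equiv.Perm X) {x x' y y' a b u u' : X}
    (hx : τ x = x') (hy : τ y = y') (ha : π a = π x') (hxy : π x' ≠ π y')
    (h1 : ¬ clash (x, x') (u, u')) (h2 : ¬ clash (y, y') (u, u'))
    (h : Equiv.swap x' a (Equiv.swap y' b (τ u)) = u') : τ u = u' := by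
  simp only [clash, not_or, not_and, not_not, ne_eq] at h1 h2
  by_cases hux : x = u
  · rw [← h1.1 hux, ← hux, hx]
  by_cases huy : y = u
  · rw [← h2.1 huy, ← huy, hy]
  have e1 : x' ≠ u' := h1.2 hux
  have e2 : y' ≠ u' := h2.2 huy
  have e3 : τ u ≠ x' := fun hh => hux (τ.injective (hx.trans hh.symm))
  have e4 : τ u ≠ y' := fun hh => huy (τ.injective (hy.trans hh.symm))
  have e5 : y' ≠ x' := fun hh => hxy (by rw [hh])
  have e6 : y' ≠ a := fun hh => hxy (by rw [hh, ha])
  by_cases hb : τ u = b
  · rw [hb, Equiv.swap_apply_right, Equiv.swap_apply_of_ne_of_ne e5 e6] at h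
    exact absurd h e2
  rw [Equiv.swap_apply_of_ne_of_ne e4 hb] at h
  by_cases ha' : τ u = a
  · rw [ha', Equiv.swap_apply_right] at h
    exact absurd h e1
  rwa [Equiv.swap_apply_of_ne_of_ne e3 ha'] at h

omit [Fintype X] [DecidableEq P] in
lemma swap_keep (π : X → P) {a b : X} (h : π a = π b) (z : X) : π (Equiv.swap a b z) = π z := by
  by_cases h1 : z = a
  · rw [h1, Equiv.swap_apply_left, h]
  by_cases h2 : z = b
  · rw [h2, Equiv.swap_apply_right, h]
  rw [Equiv.swap_apply_of_ne_of_ne h1 h2]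

/-- Permutations that keep every part. -/
abbrev Keep (π : X → P) := {τ : Equiv.Perm X // ∀ x, π (τ x) = π x}

/-- A permutation meets an event when it contains both arcs. -/
def hitP (π : X → P) (A : (X × X) × (X × X)) (τ : Keep π) : Prop :=
  τ.1 A.1.1 = A.1.2 ∧ τ.1 A.2.1 = A.2.2

/-- Two events clash when two of their arcs do. -/
def confP (A B : (X × X) × (X × X)) : Prop :=
  clash A.1 B.1 ∨ clash A.1 B.2 ∨ clash A.2 B.1 ∨ clash A.2 B.2

instance : DecidableRel (confP (X := X)) := fun A B => by unfold confP; infer_instance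

lemma lop_perm (π : X → P) (κ : X → K) (adj : X → X → Prop) [DecidableRel adj]
    (A : (X × X) × (X × X)) (hA : A ∈ events π κ adj) (S : Finset ((X × X) × (X × X)))
    (hS : ∀ B ∈ S, ¬ confP A B) :
    ((meet (hitP π) A S).card : ℝ) ≤ wt π A * (avoid (hitP π) S).card := by
  obtain ⟨⟨x, x'⟩, ⟨y, y'⟩⟩ := A
  rw [mem_events] at hA
  obtain ⟨-, hx', hy', -, hxy⟩ := hA
  simp only at hx' hy' hxy
  have hxy' : π x' ≠ π y' := by rw [hx', hy']; exact hxy
  classical
  let f : Keep π × (X × X) → Keep π := fun q =>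
    if h : π q.2.1 = π x ∧ π q.2.2 = π y then
      ⟨Equiv.swap x' q.2.1 * (Equiv.swap y' q.2.2 * q.1.1), fun z => by
        simp only [Equiv.Perm.mul_apply]
        rw [swap_keep π (hx'.trans h.1.symm), swap_keep π (hy'.trans h.2.symm), q.1.2]⟩
    else q.1
  have hval : ∀ q : Keep π × (X × X), π q.2.1 = π x → π q.2.2 = π y →
      (f q).1 = Equiv.swap x' q.2.1 * (Equiv.swap y' q.2.2 * q.1.1) := by
    intro q h1 h2
    simp only [f, dif_pos (And.intro h1 h2)]
  have hcard : ((meet (hitP π) ((x, x'), (y, y')) S) ×ˢ (part π x ×ˢ part π y)).card ≤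
      (avoid (hitP π) S).card := by
    refine card_le_card_of_injOn f ?_ ?_
    · intro q hq
      simp only [coe_product, Set.mem_prod, mem_coe, mem_meet, mem_part] at hq
      obtain ⟨⟨hav, hh1, hh2⟩, ha, hb⟩ := hq
      simp only at hh1 hh2
      rw [mem_coe, mem_avoid]
      intro B hB hhit
      have hc := hS B hB
      simp only [confP, not_or] at hc
      obtain ⟨c1, c2, c3, c4⟩ := hc
      obtain ⟨k1, k2⟩ := hhit
      rw [hval q ha hb] at k1 k2
      simp only [Equiv.Perm.mul_apply] at k1 k2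
      exact hav B hB ⟨arc_back π q.1.1 hh1 hh2 (ha.trans hx'.symm) hxy' c1 c3 k1,
        arc_back π q.1.1 hh1 hh2 (ha.trans hx'.symm) hxy' c2 c4 k2⟩
    · have hxa : ∀ q : Keep π × (X × X), π q.2.1 = π x → π q.2.2 = π y → q.1.1 x = x' →
          (f q).1 x = q.2.1 := by
        intro q h1 h2 h3
        rw [hval q h1 h2]
        simp only [Equiv.Perm.mul_apply]
        have e1 : x' ≠ y' := fun hh => hxy' (by rw [hh])
        have e2 : x' ≠ q.2.2 := fun hh => hxy (by rw [← hx', hh, h2])
        rw [h3, Equiv.swap_apply_of_ne_of_ne e1 e2, Equiv.swap_apply_left]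
      have hyb : ∀ q : Keep π × (X × X), π q.2.1 = π x → π q.2.2 = π y → q.1.1 y = y' →
          (f q).1 y = q.2.2 := by
        intro q h1 h2 h3
        rw [hval q h1 h2]
        simp only [Equiv.Perm.mul_apply]
        have e1 : q.2.2 ≠ x' := fun hh => hxy (by rw [← hx', ← hh, h2])
        have e2 : q.2.2 ≠ q.2.1 := fun hh => hxy (by rw [← h1, ← hh, h2])
        rw [h3, Equiv.swap_apply_left, Equiv.swap_apply_of_ne_of_ne e1 e2]
      intro q hq q' hq' hqq
      simp only [coe_product, Set.mem_prod, mem_coe, mem_meet, mem_part] at hq hq'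
      obtain ⟨⟨-, hh1, hh2⟩, ha, hb⟩ := hq
      obtain ⟨⟨-, hh1', hh2'⟩, ha', hb'⟩ := hq'
      simp only at hh1 hh2 hh1' hh2'
      have e1 : q.2.1 = q'.2.1 := by rw [← hxa q ha hb hh1, ← hxa q' ha' hb' hh1', hqq]
      have e2 : q.2.2 = q'.2.2 := by rw [← hyb q ha hb hh2, ← hyb q' ha' hb' hh2', hqq]
      have e3 : (f q).1 = (f q').1 := by rw [hqq]
      rw [hval q ha hb, hval q' ha' hb', e1, e2, mul_right_inj, mul_right_inj] at e3
      exact Prod.ext (Subtype.ext e3) (Prod.ext e1 e2)
  rw [card_product, card_product] at hcard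
  have h1 := part_pos π x
  have h2 := part_pos π y
  have h3 : ((meet (hitP π) ((x, x'), (y, y')) S).card : ℝ) *
      (((part π x).card : ℝ) * (part π y).card) ≤ (avoid (hitP π) S).card := by
    exact_mod_cast hcard
  unfold wt
  simp only
  rw [div_mul_eq_mul_div, one_mul, le_div_iff₀ (by positivity)]
  exact h3

lemma arc_bound (π : X → P) (κ : X → K) (adj : X → X → Prop) [DecidableRel adj]
    (hκ : ∀ x y, π x = π y → κ x = κ y → x = y)
    (F : X → Prop) [DecidablePred F]
    (hF1 : ∀ x y, F x → π y = π x → y = x) (hF2 : ∀ x y, F x → F y → κ x = κ y → x = y)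
    (h1 : ∀ x, ¬ F x → 33 * (univ.filter (adj x)).card ≤ (part π x).card)
    (hw : ∀ u, ∑ w ∈ univ.filter (fun w => adj u w ∧ ¬ F w), 1 / ((part π w).card : ℝ) ≤ 1 / 33)
    (h3 : ∀ x w, ¬ F x → F w →
      1000 * ((part π x).filter (fun u => adj u w)).card ≤ (part π x).card)
    (x x' : X) (hx : π x' = π x) :
    ∑ B ∈ (events π κ adj).filter (fun B => clash (x, x') B.1), wt π B ≤ 1 / 16 := by
  by_cases hFx : F x
  · have : (events π κ adj).filter (fun B => clash (x, x') B.1) = ∅ := by
      refine filter_eq_empty_iff.2 fun B hB hc => ?_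
      rw [mem_events] at hB
      have e := hF1 x x' hFx hx
      rcases hc with ⟨c1, c2⟩ | ⟨c1, c2⟩
      · simp only at c1 c2
        exact c2 (e.trans (hF1 x B.1.2 hFx (by rw [hB.2.1, c1])).symm)
      · simp only at c1 c2
        exact c1 (hF1 x B.1.1 hFx (by rw [← hB.2.1, ← c2, hx])).symm
    rw [this, sum_empty]; norm_num
  have hM := part_pos π x
  set S0 := events π κ adj with hS0
  set I := S0.filter (fun B => B.1.1 = x) with hI
  set II := S0.filter (fun B => B.1.2 = x' ∧ ¬ F B.2.1) with hII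
  set III := S0.filter (fun B => B.1.2 = x' ∧ F B.2.1) with hIII
  have hsplit : ∑ B ∈ S0.filter (fun B => clash (x, x') B.1), wt π B ≤
      ∑ B ∈ I, wt π B + ∑ B ∈ II, wt π B + ∑ B ∈ III, wt π B := by
    rw [hI, hII, hIII, sum_filter, sum_filter, sum_filter, sum_filter, ← sum_add_distrib,
      ← sum_add_distrib]
    refine sum_le_sum fun B _ => ?_
    have h0 := wt_nonneg π B
    by_cases hc : clash (x, x') B.1
    · rw [if_pos hc]
      rcases hc with ⟨c1, -⟩ | ⟨-, c2⟩
      · simp only at c1
        rw [if_pos c1.symm]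
        split_ifs <;> linarith
      · simp only at c2
        by_cases hf : F B.2.1
        · rw [if_pos (And.intro c2.symm hf)]
          split_ifs <;> linarith
        · rw [if_pos (And.intro c2.symm hf)]
          split_ifs <;> linarith
    · rw [if_neg hc]
      split_ifs <;> linarith
  have bI : ∑ B ∈ I, wt π B ≤ 1 / 33 := by
    have := sum_le_of_inj I ((univ.filter (adj x)).sigma (fun w => part π w))
      (fun B => ⟨B.2.1, B.2.2⟩) (wt π)
      (fun q => 1 / (((part π x).card : ℝ) * (part π q.1).card)) ?_ ?_ ?_ ?_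
    · refine this.trans ?_
      rw [sum_sigma]
      have e : ∀ w ∈ univ.filter (adj x), ∑ s ∈ part π w,
          1 / (((part π x).card : ℝ) * (part π w).card) = 1 / ((part π x).card : ℝ) := by
        intro w _
        have := part_pos π w
        rw [sum_const, nsmul_eq_mul]
        field_simp
      rw [sum_congr rfl e, sum_const, nsmul_eq_mul]
      have : (33 : ℝ) * (univ.filter (adj x)).card ≤ (part π x).card := by exact_mod_cast h1 x hFx
      rw [mul_one_div, div_le_div_iff₀ (by linarith) (by norm_num)]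
      linarith
    · intro B hB
      obtain ⟨hB, e⟩ := mem_filter.1 hB
      rw [mem_events] at hB
      simp only [mem_sigma, mem_filter, mem_univ, true_and, mem_part]
      exact ⟨e ▸ hB.1, hB.2.2.1⟩
    · intro B hB B' hB' hBB
      obtain ⟨hB, e⟩ := mem_filter.1 hB
      obtain ⟨hB', e'⟩ := mem_filter.1 hB'
      rw [mem_events] at hB hB'
      simp only [Sigma.mk.injEq, heq_eq_eq] at hBB
      refine Prod.ext (Prod.ext (e.trans e'.symm) ?_) (Prod.ext hBB.1 hBB.2)
      exact hκ _ _ (by rw [hB.2.1, hB'.2.1, e, e']) (by rw [hB.2.2.2.1, hB'.2.2.2.1, hBB.2])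
    · intro B hB
      obtain ⟨hB, e⟩ := mem_filter.1 hB
      simp only [wt, e, le_refl]
    · intro q _
      positivity
  have bII : ∑ B ∈ II, wt π B ≤ 1 / 33 := by
    have := sum_le_of_inj II
      ((part π x).sigma (fun u => univ.filter (fun w => adj u w ∧ ¬ F w)))
      (fun B => ⟨B.1.1, B.2.1⟩) (wt π)
      (fun q => 1 / ((part π x).card : ℝ) * (1 / ((part π q.2).card : ℝ))) ?_ ?_ ?_ ?_
    · refine this.trans ?_
      rw [sum_sigma]
      have e : ∀ u ∈ part π x, ∑ w ∈ univ.filter (fun w => adj u w ∧ ¬ F w),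
          1 / ((part π x).card : ℝ) * (1 / ((part π w).card : ℝ)) ≤
            1 / ((part π x).card : ℝ) * (1 / 33) := by
        intro u _
        rw [← mul_sum]
        exact mul_le_mul_of_nonneg_left (hw u) (by positivity)
      refine (sum_le_sum e).trans ?_
      rw [sum_const, nsmul_eq_mul]
      apply le_of_eq
      field_simp
    · intro B hB
      obtain ⟨hB, e, e2⟩ := mem_filter.1 hB
      rw [mem_events] at hB
      simp only [mem_sigma, mem_filter, mem_univ, true_and, mem_part]
      exact ⟨by rw [← hB.2.1, e, hx], hB.1, e2⟩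
    · intro B hB B' hB' hBB
      obtain ⟨hB, e, -⟩ := mem_filter.1 hB
      obtain ⟨hB', e', -⟩ := mem_filter.1 hB'
      rw [mem_events] at hB hB'
      simp only [Sigma.mk.injEq, heq_eq_eq] at hBB
      refine Prod.ext (Prod.ext hBB.1 (e.trans e'.symm)) (Prod.ext hBB.2 ?_)
      exact hκ _ _ (by rw [hB.2.2.1, hB'.2.2.1, hBB.2])
        (by rw [← hB.2.2.2.1, ← hB'.2.2.2.1, e, e'])
    · intro B hB
      obtain ⟨hB, e, -⟩ := mem_filter.1 hB
      rw [mem_events] at hB
      have : part π B.1.1 = part π x := part_congr π (by rw [← hB.2.1, e, hx])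
      simp only [wt, this]
      rw [one_div_mul_one_div]
    · intro q _
      positivity
  have bIII : ∑ B ∈ III, wt π B ≤ 1 / 1000 := by
    rcases III.eq_empty_or_nonempty with he | ⟨B0, hB0⟩
    · rw [he, sum_empty]; norm_num
    obtain ⟨hB0, e0, f0⟩ := mem_filter.1 hB0
    rw [mem_events] at hB0
    have hone : ∀ B ∈ III, B.2.1 = B0.2.1 ∧ B.2.2 = B0.2.1 := by
      intro B hB
      obtain ⟨hB, e, f⟩ := mem_filter.1 hB
      rw [mem_events] at hB
      have a1 := hF1 _ _ f hB.2.2.1
      have a0 := hF1 _ _ f0 hB0.2.2.1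
      have a2 : B.2.1 = B0.2.1 :=
        hF2 _ _ f f0 (by rw [← a1, ← a0, ← hB.2.2.2.1, ← hB0.2.2.2.1, e, e0])
      exact ⟨a2, a1.trans a2⟩
    have := sum_le_of_inj III ((part π x).filter (fun u => adj u B0.2.1))
      (fun B => B.1.1) (wt π) (fun _ => 1 / ((part π x).card : ℝ)) ?_ ?_ ?_ ?_
    · refine this.trans ?_
      rw [sum_const, nsmul_eq_mul]
      have : (1000 : ℝ) * ((part π x).filter (fun u => adj u B0.2.1)).card ≤ (part π x).card := by
        exact_mod_cast h3 x B0.2.1 hFx f0
      rw [mul_one_div, div_le_div_iff₀ (by linarith) (by norm_num)]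
      linarith
    · intro B hB
      have a := hone B hB
      obtain ⟨hB, e, -⟩ := mem_filter.1 hB
      rw [mem_events] at hB
      simp only [mem_filter, mem_part]
      exact ⟨by rw [← hB.2.1, e, hx], a.1 ▸ hB.1⟩
    · intro B hB B' hB' hBB
      have a := hone B hB
      have a' := hone B' hB'
      obtain ⟨-, e, -⟩ := mem_filter.1 hB
      obtain ⟨-, e', -⟩ := mem_filter.1 hB'
      exact Prod.ext (Prod.ext hBB (e.trans e'.symm))
        (Prod.ext (a.1.trans a'.1.symm) (a.2.trans a'.2.symm))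
    · intro B hB
      obtain ⟨hB, e, -⟩ := mem_filter.1 hB
      rw [mem_events] at hB
      have e2 : part π B.1.1 = part π x := part_congr π (by rw [← hB.2.1, e, hx])
      have := part_pos π B.2.1
      simp only [wt, e2]
      exact one_div_le_one_div_of_le (by linarith) (by nlinarith)
    · intro q _
      positivity
  linarith

/-- A permutation that keeps every part and gives adjacent points different colours. -/
theorem perm_colour (π : X → P) (κ : X → K) (adj : X → X → Prop) [DecidableRel adj]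
    (hsymm : ∀ x y, adj x y → adj y x)
    (hκ : ∀ x y, π x = π y → κ x = κ y → x = y)
    (F : X → Prop) [DecidablePred F]
    (hF1 : ∀ x y, F x → π y = π x → y = x) (hF2 : ∀ x y, F x → F y → κ x = κ y → x = y)
    (h1 : ∀ x, ¬ F x → 33 * (univ.filter (adj x)).card ≤ (part π x).card)
    (hw : ∀ u, ∑ w ∈ univ.filter (fun w => adj u w ∧ ¬ F w), 1 / ((part π w).card : ℝ) ≤ 1 / 33)
    (h3 : ∀ x w, ¬ F x → F w →
      1000 * ((part π x).filter (fun u => adj u w)).card ≤ (part π x).card) :
    ∃ τ : Equiv.Perm X, (∀ x, π (τ x) = π x) ∧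
      ∀ x y, adj x y → x ≠ y → κ (τ x) ≠ κ (τ y) := by
  classical
  have : Nonempty (Keep π) := ⟨⟨1, fun _ => rfl⟩⟩
  have hbig : ∀ x y, adj x y → ¬ F x → (33 : ℝ) ≤ (part π x).card := by
    intro x y hxy hx
    have a := h1 x hx
    have b : 0 < (univ.filter (adj x)).card := card_pos.2 ⟨y, by simpa using hxy⟩
    have c : 33 ≤ (part π x).card := by omega
    exact_mod_cast c
  have hflip : ∀ x x' : X, ∑ B ∈ (events π κ adj).filter (fun B => clash (x, x') B.2), wt π B =
      ∑ B ∈ (events π κ adj).filter (fun B => clash (x, x') B.1), wt π B := by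
    intro x x'
    refine sum_equiv (Equiv.prodComm _ _) ?_ ?_
    · intro B
      simp only [mem_filter, mem_events, Equiv.prodComm_apply, Prod.fst_swap, Prod.snd_swap]
      constructor
      · rintro ⟨⟨a, b, c, d, e⟩, f⟩
        exact ⟨⟨hsymm _ _ a, c, b, d.symm, e.symm⟩, f⟩
      · rintro ⟨⟨a, b, c, d, e⟩, f⟩
        exact ⟨⟨hsymm _ _ a, c, b, d.symm, e.symm⟩, f⟩
    · intro B _
      simp only [wt, Equiv.prodComm_apply, Prod.fst_swap, Prod.snd_swap]
      rw [mul_comm]
  have key := lopsided (hitP π) (wt π) confP (events π κ adj)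
    (fun A _ => wt_nonneg π A) ?_ (fun A hA S _ hS => lop_perm π κ adj A hA S hS) ?_
  · obtain ⟨τ, hτ⟩ := key
    refine ⟨τ.1, τ.2, fun x y hxy hne hk => ?_⟩
    by_cases hp : π x = π y
    · exact hne (τ.1.injective (hκ _ _ (by rw [τ.2, τ.2, hp]) hk))
    · exact hτ ((x, τ.1 x), (y, τ.1 y)) ((mem_events _ _ _ _).2 ⟨hxy, τ.2 x, τ.2 y, hk, hp⟩)
        ⟨rfl, rfl⟩
  · intro A hA
    rw [mem_events] at hA
    have a := part_pos π A.1.1
    have b := part_pos π A.2.1
    have c : (33 : ℝ) ≤ ((part π A.1.1).card : ℝ) * (part π A.2.1).card := by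
      by_cases f1 : F A.1.1
      · by_cases f2 : F A.2.1
        · exfalso
          have e1 := hF1 _ _ f1 hA.2.1
          have e2 := hF1 _ _ f2 hA.2.2.1
          have e3 := hF2 _ _ f1 f2 (by rw [← e1, ← e2, hA.2.2.2.1])
          exact hA.2.2.2.2 (by rw [e3])
        · have := hbig _ _ (hsymm _ _ hA.1) f2
          nlinarith
      · have := hbig _ _ hA.1 f1
        nlinarith
    have d : wt π A ≤ 1 / 33 := one_div_le_one_div_of_le (by norm_num) c
    linarith
  · intro A hA
    rw [mem_events] at hA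
    have b1 := arc_bound π κ adj hκ F hF1 hF2 h1 hw h3 A.1.1 A.1.2 hA.2.1
    have b2 := arc_bound π κ adj hκ F hF1 hF2 h1 hw h3 A.2.1 A.2.2 hA.2.2.1
    have b3 := (hflip A.1.1 A.1.2).le.trans b1
    have b4 := (hflip A.2.1 A.2.2).le.trans b2
    have hsplit : ∑ B ∈ (events π κ adj).filter (confP A), wt π B ≤
        ∑ B ∈ (events π κ adj).filter (fun B => clash (A.1.1, A.1.2) B.1), wt π B +
        ∑ B ∈ (events π κ adj).filter (fun B => clash (A.1.1, A.1.2) B.2), wt π B +
        ∑ B ∈ (events π κ adj).filter (fun B => clash (A.2.1, A.2.2) B.1), wt π B +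
        ∑ B ∈ (events π κ adj).filter (fun B => clash (A.2.1, A.2.2) B.2), wt π B := by
      simp only [sum_filter, ← sum_add_distrib]
      refine sum_le_sum fun B _ => ?_
      have h0 := wt_nonneg π B
      by_cases hc : confP A B
      · rw [if_pos hc]
        rcases hc with c | c | c | c
        all_goals
          rw [if_pos c]
          split_ifs <;> linarith
      · rw [if_neg hc]
        split_ifs <;> linarith
    linarith

end perm

end Pool.Agent.MP_f65396_co.h32
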