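import Mathlib.Combinatorics.SimpleGraph.Finite
import Mathlib.Tactic.Algebra.Basic
import Pool.Agent.MP_f65396_co.h32.Asm
import Pool.Agent.MP_f65396_co.h32.LLL

/-! Ascending decompositions into star forests when the vertices of large degree are
independent. -/

set_option autoImplicit false

namespace Pool.Agent.MP_f65396_co.h32

open Finset

lemma card_sub {α : Type*} (s : Finset α) (p : α → Prop) [DecidablePred p] :
    (univ.filter (fun y : s => p y)).card = (s.filter p).card := by
  rw [univ_eq_attach, filter_attach, card_map, card_attach]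

lemma fibre_equiv {α β γ : Type*} [DecidableEq γ] (s : Finset α) (t : Finset β) (f : α → γ)
    (g : β → γ) (h : ∀ c, (s.filter (fun x => f x = c)).card = (t.filter (fun y => g y = c)).card) :
    ∃ e : s ≃ t, ∀ x, g (e x) = f x := by
  have k : ∀ c, Fintype.card {x : s // f x = c} = Fintype.card {y : t // g y = c} := fun c => by
    rw [Fintype.card_subtype, Fintype.card_subtype, card_sub s (fun x => f x = c),
      card_sub t (fun y => g y = c), h]
  exact ⟨Equiv.ofFiberEquiv (f := fun x : s => f x) (g := fun y : t => g y)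
    (fun c => Fintype.equivOfCardEq (k c)), fun x =>
      Equiv.ofFiberEquiv_map (f := fun x : s => f x) (g := fun y : t => g y) _ x⟩

lemma deal_cells (n : ℕ) (Y : Finset (ℕ × ℕ)) (hY : Y ⊆ cells n) (r m : ℕ) (hr : 0 < r)
    (hn : 0 < n) (h : ∀ s, (Y.filter (fun x => x.2 = s)).card * n ≤ r * Y.card) :
    ∃ col : ℕ × ℕ → ℕ, (∀ y ∈ Y, ∀ z ∈ Y, col y = col z → y.2 = z.2 → y = z) ∧
      ∀ y ∈ Y, m = n / r → m ≤ (Y.filter (fun z => col z = col y)).card := by
  rcases Y.eq_empty_or_nonempty with he | ⟨y0, hy0⟩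
  · exact ⟨fun _ => 0, by simp [he], by simp [he]⟩
  have fib : ∀ s, (Y.filter (fun x => x.2 = s)).card ≤ r * Y.card / n := fun s =>
    (Nat.le_div_iff_mul_le hn).2 (h s)
  have k0 : 0 < r * Y.card / n :=
    lt_of_lt_of_le (card_pos.2 ⟨y0, mem_filter.2 (⟨hy0, rfl⟩ : y0 ∈ Y ∧ y0.2 = y0.2)⟩)
      (fib y0.2)
  have mono : ∀ y ∈ Y, ∀ z ∈ Y, y.2 * (n + 1) + y.1 ≤ z.2 * (n + 1) + z.1 → y.2 ≤ z.2 := by
    intro y _ z hz e
    by_contra c
    have a1 := Nat.mul_le_mul_right (n + 1) (show z.2 + 1 ≤ y.2 by omega)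
    have a2 := (mem_cells.1 (hY hz)).2
    rw [add_mul, one_mul] at a1
    omega
  obtain ⟨col, c1, c2⟩ := deal Y (fun x => x.2 * (n + 1) + x.1) Prod.snd (fun y hy z hz e => by
      have a1 := mono y hy z hz e.le
      have a2 := mono z hz y hy e.ge
      have a3 : y.2 = z.2 := by omega
      simp only [a3] at e
      exact Prod.ext (by omega) a3) mono _ k0 (fun y _ => fib y.2)
  refine ⟨col, c1, fun y hy hm => le_trans ?_ (c2 y hy)⟩
  rw [Nat.le_div_iff_mul_le k0, hm]
  have a1 : n / r * r ≤ n := Nat.div_mul_le_self _ _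
  have a2 : r * Y.card / n * n ≤ r * Y.card := Nat.div_mul_le_self _ _
  refine Nat.le_of_mul_le_mul_right ?_ (Nat.mul_pos hr hn)
  calc n / r * (r * Y.card / n) * (r * n) = (n / r * r) * (r * Y.card / n * n) := by ring
    _ ≤ n * (r * Y.card) := Nat.mul_le_mul a1 a2
    _ = Y.card * (r * n) := by ring

lemma columns {V : Type*} [DecidableEq V] (n : ℕ) (hn : 0 < n) (own : ℕ × ℕ → Option V)
    (h1 : ∀ a s, (((cells n).filter (fun x => own x = some a)).filter
      (fun x => x.2 = s)).card * n ≤ 6000 * ((cells n).filter (fun x => own x = some a)).card)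
    (h2 : (∀ s, (((cells n).filter (fun x => own x = none)).filter (fun x => x.2 = s)).card ≤ 1) ∨
      ∀ s, (((cells n).filter (fun x => own x = none)).filter (fun x => x.2 = s)).card * n ≤
        3 * ((cells n).filter (fun x => own x = none)).card) :
    ∃ (π : ℕ × ℕ → Option V × ℕ) (fr : Prop), (∀ x, (π x).1 = own x) ∧
      (∀ x ∈ cells n, ∀ y ∈ cells n, π x = π y → x.2 = y.2 → x = y) ∧
      (∀ x ∈ cells n, own x ≠ none → n / 6000 ≤ ((cells n).filter (fun y => π y = π x)).card) ∧
      (¬ fr → ∀ x ∈ cells n, own x = none →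
        n / 3 ≤ ((cells n).filter (fun y => π y = π x)).card) ∧
      (fr → ∀ x ∈ cells n, ∀ y ∈ cells n, own x = none → own y = none →
        (π x = π y ∨ x.2 = y.2) → x = y) := by
  have one : (∀ s, (((cells n).filter (fun x => own x = none)).filter
      (fun x => x.2 = s)).card ≤ 1) → ∀ x ∈ (cells n).filter (fun x => own x = none),
      ∀ y ∈ (cells n).filter (fun x => own x = none), x.2 = y.2 → x = y :=
    fun h x hx y hy e => card_le_one.1 (h y.2) x (mem_filter.2 ⟨hx, e⟩) y (mem_filter.2 ⟨hy, rfl⟩)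
  obtain ⟨fr, hcol⟩ : ∃ fr : Prop, ∀ o : Option V, ∃ col : ℕ × ℕ → ℕ,
      (∀ y ∈ (cells n).filter (fun x => own x = o), ∀ z ∈ (cells n).filter (fun x => own x = o),
        col y = col z → y.2 = z.2 → y = z) ∧
      (∀ y ∈ (cells n).filter (fun x => own x = o), (o ≠ none → n / 6000 ≤
        (((cells n).filter (fun x => own x = o)).filter (fun z => col z = col y)).card) ∧
        (¬ fr → o = none → n / 3 ≤
          (((cells n).filter (fun x => own x = o)).filter (fun z => col z = col y)).card)) ∧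
      (fr → o = none → ∀ y ∈ (cells n).filter (fun x => own x = o),
        ∀ z ∈ (cells n).filter (fun x => own x = o), (col y = col z ∨ y.2 = z.2) → y = z) := by
    refine ⟨∀ s, (((cells n).filter (fun x => own x = none)).filter
      (fun x => x.2 = s)).card ≤ 1, ?_⟩
    rintro (_ | a)
    · by_cases fr : ∀ s, (((cells n).filter (fun x => own x = none)).filter
        (fun x => x.2 = s)).card ≤ 1
      · exact ⟨Prod.snd, fun y hy z hz e _ => one fr y hy z hz e,
          fun y _ => ⟨fun h => absurd rfl h, fun h => absurd fr h⟩,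
          fun _ _ y hy z hz e => one fr y hy z hz (e.elim id id)⟩
      · obtain ⟨col, c1, c2⟩ := deal_cells n _ (filter_subset _ _) 3 (n / 3) (by norm_num) hn
          (h2.resolve_left fr)
        exact ⟨col, c1, fun y hy => ⟨fun h => absurd rfl h, fun _ _ => c2 y hy rfl⟩,
          fun h => absurd h fr⟩
    · obtain ⟨col, c1, c2⟩ := deal_cells n _ (filter_subset _ _) 6000 (n / 6000) (by norm_num) hn
        (h1 a)
      exact ⟨col, c1, fun y hy => ⟨fun _ => c2 y hy rfl, fun _ h => absurd h (by simp)⟩,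
        fun _ h => absurd h (by simp)⟩
  choose col c1 c2 c3 using hcol
  have sub : ∀ x, ((cells n).filter (fun y => own y = own x)).filter
      (fun z => col (own x) z = col (own x) x) ⊆
      (cells n).filter (fun y => (own y, col (own y) y) = (own x, col (own x) x)) := by
    intro x y hy
    obtain ⟨hy, e2⟩ := mem_filter.1 hy
    obtain ⟨hy, e1⟩ := mem_filter.1 hy
    exact mem_filter.2 ⟨hy, by rw [e1, e2]⟩
  refine ⟨fun x => (own x, col (own x) x), fr, fun _ => rfl, fun x hx y hy e e' => ?_,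
    fun x hx h => ?_, fun f x hx h => ?_, fun f x hx y hy ex ey e => ?_⟩
  · obtain ⟨e1, e2⟩ := Prod.ext_iff.1 e
    simp only at e1 e2
    rw [← e1] at e2
    exact c1 (own x) x (mem_filter.2 ⟨hx, rfl⟩) y (mem_filter.2 ⟨hy, e1.symm⟩) e2 e'
  · exact ((c2 (own x) x (mem_filter.2 ⟨hx, rfl⟩)).1 h).trans (card_le_card (sub x))
  · exact ((c2 (own x) x (mem_filter.2 ⟨hx, rfl⟩)).2 f h).trans (card_le_card (sub x))
  · refine c3 none f rfl x (mem_filter.2 ⟨hx, ex⟩) y (mem_filter.2 ⟨hy, ey⟩) (e.imp_left fun e => ?_)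
    have := (Prod.ext_iff.1 e).2
    simpa only [ex, ey] using this

lemma wsum {X : Type*} (s : Finset X) (M : X → ℕ) (m : ℕ) (c : ℝ) (hm : 0 < m)
    (h : ∀ x ∈ s, m ≤ M x) (hc : (s.card : ℝ) ≤ c * m) : ∑ x ∈ s, 1 / (M x : ℝ) ≤ c := by
  have m0 : (0 : ℝ) < m := by exact_mod_cast hm
  have := sum_le_card_nsmul s (fun x => 1 / (M x : ℝ)) (1 / m) fun x hx =>
    one_div_le_one_div_of_le m0 (by exact_mod_cast h x hx)
  rw [nsmul_eq_mul, mul_one_div] at this
  exact this.trans ((div_le_iff₀ m0).2 hc)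

lemma cast_le (a b p q : ℕ) (hp : 0 < p) (h : p * a ≤ q * b) : (a : ℝ) ≤ q / p * b := by
  have p0 : (0 : ℝ) < p := by exact_mod_cast hp
  have : (p : ℝ) * a ≤ q * b := by exact_mod_cast h
  rw [div_mul_eq_mul_div, le_div_iff₀ p0]
  linarith

theorem label {V : Type*} [Fintype V] [DecidableEq V] (G : SimpleGraph V) [DecidableRel G.Adj]
    (n : ℕ) (hn : 100000000 ≤ n) (c l : Sym2 V → V)
    (hcl : ∀ e ∈ G.edgeFinset, e = s(c e, l e) ∧ 100000000 * G.degree (l e) ≤ n)
    (own : ℕ × ℕ → Option V)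
    (hcard : ∀ o, ((cells n).filter (fun x => own x = o)).card = (G.edgeFinset.filter
      (fun e => (if n < 100 * G.degree (c e) then some (c e) else none) = o)).card)
    (h1 : ∀ a s, (((cells n).filter (fun x => own x = some a)).filter
      (fun x => x.2 = s)).card * n ≤ 6000 * ((cells n).filter (fun x => own x = some a)).card)
    (h2 : (∀ s, (((cells n).filter (fun x => own x = none)).filter (fun x => x.2 = s)).card ≤ 1) ∨
      ∀ s, (((cells n).filter (fun x => own x = none)).filter (fun x => x.2 = s)).card * n ≤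
        3 * ((cells n).filter (fun x => own x = none)).card) :
    ∃ ε : cells n ≃ G.edgeFinset,
      (∀ x, (if n < 100 * G.degree (c (ε x)) then some (c (ε x)) else none) = own x) ∧
      ∀ x y : cells n, x.1.2 = y.1.2 → ∀ v, ¬ n < 100 * G.degree v → v ∈ (ε x).1 → v ∈ (ε y).1 →
        x = y := by
  classical
  obtain ⟨ψ, hψ⟩ := fibre_equiv (cells n) G.edgeFinset own
    (fun e => if n < 100 * G.degree (c e) then some (c e) else none) hcard
  obtain ⟨π, fr, p0, p1, p2, p3, p4⟩ := columns n (by omega) own h1 h2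
  set adj : cells n → cells n → Prop := fun x y =>
    ∃ v, ¬ n < 100 * G.degree v ∧ v ∈ (ψ x).1 ∧ v ∈ (ψ y).1 with hadj
  have ends : ∀ (x : cells n) v, v ∈ (ψ x).1 → v = c (ψ x) ∨ v = l (ψ x) := fun x v hv => by
    rwa [(hcl _ (ψ x).2).1, Sym2.mem_iff] at hv
  have star : ∀ v, (univ.filter (fun y : cells n => v ∈ (ψ y).1)).card ≤ G.degree v := by
    intro v
    rw [← G.card_incidenceFinset_eq_degree]
    refine card_le_card_of_injOn (fun y => (ψ y).1) (fun y hy => ?_)
      (fun y _ z _ e => ψ.injective (Subtype.ext e))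
    rw [mem_coe, SimpleGraph.mem_incidenceFinset]
    exact ⟨SimpleGraph.mem_edgeFinset.1 (ψ y).2, (mem_filter.1 hy).2⟩
  have two : ∀ (x : cells n) (s : Finset (cells n)) (b : ℕ), n / 100000000 ≤ b →
      (∀ y ∈ s, l (ψ x) ∈ (ψ y).1 ∨ (G.degree (c (ψ x)) ≤ b ∧ c (ψ x) ∈ (ψ y).1)) →
      s.card ≤ n / 100000000 + b := by
    intro x s b hb h
    have a1 := star (l (ψ x))
    have a2 := star (c (ψ x))
    have a3 := (hcl _ (ψ x).2).2
    by_cases k : G.degree (c (ψ x)) ≤ b
    · have := (card_le_card (show s ⊆ univ.filter (fun y : cells n => l (ψ x) ∈ (ψ y).1) ∪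
          univ.filter (fun y : cells n => c (ψ x) ∈ (ψ y).1) from fun y hy => by
        simp only [mem_union, mem_filter, mem_univ, true_and]
        exact (h y hy).imp_right And.right)).trans (card_union_le _ _)
      omega
    · have := card_le_card (show s ⊆ univ.filter (fun y : cells n => l (ψ x) ∈ (ψ y).1) from
        fun y hy => mem_filter.2 ⟨mem_univ _, (h y hy).resolve_right fun hh => k hh.1⟩)
      omega
  have heavy : ∀ x : cells n, own x ≠ none → n < 100 * G.degree (c (ψ x)) := fun x h => by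
    by_contra k
    exact h ((hψ x).symm.trans (if_neg k))
  have nb1 : ∀ (x : cells n) (s : Finset (cells n)), (∀ y ∈ s, adj x y) →
      s.card ≤ n / 100000000 + n / 100 := fun x s h => two x s _ (by omega) fun y hy => by
    obtain ⟨v, v1, v2, v3⟩ := h y hy
    rcases ends x v v2 with e | e
    · exact Or.inr ⟨by rw [← e]; omega, e ▸ v3⟩
    · exact Or.inl (e ▸ v3)
  have nb2 : ∀ (x : cells n) (s : Finset (cells n)),
      (∀ y ∈ s, adj x y ∧ (own x ≠ none ∨ own y ≠ none)) →
      s.card ≤ n / 100000000 + n / 100000000 := fun x s h => two x s _ le_rfl fun y hy => by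
    obtain ⟨⟨v, v1, v2, v3⟩, k⟩ := h y hy
    rcases ends x v v2 with e | e
    · rcases k with k | k
      · exact absurd (e ▸ heavy x k) v1
      · rcases ends y v v3 with e' | e'
        · exact absurd (e' ▸ heavy y k) v1
        · have := (hcl _ (ψ y).2).2
          exact Or.inr ⟨by rw [← e, e']; omega, e ▸ v3⟩
    · exact Or.inl (e ▸ v3)
  have symm : ∀ x y, adj x y → adj y x := fun x y ⟨v, a, b, d⟩ => ⟨v, a, d, b⟩
  have pc : ∀ x : cells n, (part (fun y : cells n => π y) x).card =
      ((cells n).filter (fun y => π y = π x)).card := fun x => card_sub (cells n) fun y => π y = π x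
  have big1 : ∀ x : cells n, own x ≠ none → n / 6000 ≤ (part (fun y : cells n => π y) x).card :=
    fun x h => pc x ▸ p2 x x.2 h
  have big2 : ∀ x : cells n, ¬ (fr ∧ own x = none) → own x = none →
      n / 3 ≤ (part (fun y : cells n => π y) x).card :=
    fun x h h' => pc x ▸ p3 (fun f => h ⟨f, h'⟩) x x.2 h'
  obtain ⟨τ, t1, t2⟩ := perm_colour (fun y : cells n => π y) (fun y => y.1.2) adj symm
    (fun x y e e' => Subtype.ext (p1 x x.2 y y.2 e e')) (fun x => fr ∧ own x = none)
    (fun x y f e => Subtype.ext (p4 f.1 y y.2 x x.2 (by rw [← p0, e, p0, f.2]) f.2 (Or.inl e)))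
    (fun x y f f' e => Subtype.ext (p4 f.1 x x.2 y y.2 f.2 f'.2 (Or.inr e))) (by
      intro x hx
      by_cases k : own x = none
      · have a1 := nb1 x (univ.filter (adj x)) fun y hy => (mem_filter.1 hy).2
        have a2 := big2 x hx k
        omega
      · have a1 := nb2 x (univ.filter (adj x)) fun y hy => ⟨(mem_filter.1 hy).2, Or.inl k⟩
        have a2 := big1 x k
        omega) (by
      intro u
      rw [← sum_filter_add_sum_filter_not _ (fun w : cells n => own w = none)]
      have a1 := nb1 u ((univ.filter (fun w => adj u w ∧ ¬ (fr ∧ own w = none))).filter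
        (fun w : cells n => own w = none)) fun y hy => (mem_filter.1 (mem_filter.1 hy).1).2.1
      have a2 := nb2 u ((univ.filter (fun w => adj u w ∧ ¬ (fr ∧ own w = none))).filter
        (fun w : cells n => ¬ own w = none)) fun y hy =>
          ⟨(mem_filter.1 (mem_filter.1 hy).1).2.1, Or.inr (mem_filter.1 hy).2⟩
      have b1 := wsum ((univ.filter (fun w => adj u w ∧ ¬ (fr ∧ own w = none))).filter
        (fun w : cells n => own w = none)) (fun w => (part (fun y : cells n => π y) w).card)
        (n / 3) (301 / 10000) (by omega)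
        (fun y hy => big2 y (mem_filter.1 (mem_filter.1 hy).1).2.2 (mem_filter.1 hy).2)
        (cast_le _ _ 10000 301 (by omega) (by omega))
      have b2 := wsum ((univ.filter (fun w => adj u w ∧ ¬ (fr ∧ own w = none))).filter
        (fun w : cells n => ¬ own w = none)) (fun w => (part (fun y : cells n => π y) w).card)
        (n / 6000) (2 / 10000) (by omega) (fun y hy => big1 y (mem_filter.1 hy).2)
        (cast_le _ _ 10000 2 (by omega) (by omega))
      linarith) (by
      intro x w hx hw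
      have k : own x ≠ none := fun k => hx ⟨hw.1, k⟩
      have a1 := nb2 w ((part (fun y : cells n => π y) x).filter (fun u => adj u w)) fun y hy =>
        ⟨symm _ _ (mem_filter.1 hy).2, Or.inr (by
          have := (mem_part _ _ _).1 (mem_filter.1 hy).1
          rwa [← p0, this, p0])⟩
      have a2 := big1 x k
      omega)
  refine ⟨τ.symm.trans ψ, fun x => ?_, fun x y e v v1 v2 v3 => ?_⟩
  · have := t1 (τ.symm x)
    rw [Equiv.apply_symm_apply] at this
    rw [← p0, this, p0]
    exact hψ _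
  · by_contra k
    refine t2 (τ.symm x) (τ.symm y) ⟨v, v1, v2, v3⟩ (fun h => k (τ.symm.injective h)) ?_
    simpa only [Equiv.apply_symm_apply] using e

theorem main (V : Type) [Fintype V] (G : SimpleGraph V) (n : ℕ)
    (hE : G.edgeSet.ncard = n * (n + 1) / 2)
    (hdeg : ∀ u v, G.Adj u v → 10 ^ 8 * (G.neighborSet u).ncard ≤ n ∨
      10 ^ 8 * (G.neighborSet v).ncard ≤ n) :
    ∃ H : Fin n → SimpleGraph V, (⨆ i, H i) = G ∧
      Pairwise (fun i j => Disjoint (H i).edgeSet (H j).edgeSet) ∧
      (∀ i : Fin n, (H i).edgeSet.ncard = i.val + 1) ∧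
      (∀ i j : Fin n, j.val = i.val + 1 → ∃ f : V → V, Function.Injective f ∧
        ∀ u v : V, (H i).Adj u v → (H j).Adj (f u) (f v)) ∧
      ∀ (i : Fin n) (u v : V), (H i).Adj u v →
        (∀ w, (H i).Adj u w → w = v) ∨ ∀ w, (H i).Adj v w → w = u := by
  classical
  have dg : ∀ v, (G.neighborSet v).ncard = G.degree v := fun v => by
    rw [← SimpleGraph.card_neighborFinset_eq_degree, ← Set.ncard_coe_finset,
      SimpleGraph.coe_neighborFinset]
  simp only [dg] at hdeg
  rw [← SimpleGraph.coe_edgeFinset, Set.ncard_coe_finset] at hE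
  by_cases hne : ∃ u v, G.Adj u v
  swap
  · have hG : G = ⊥ := by
      ext u v
      exact ⟨fun h => hne ⟨u, v, h⟩, fun h => h.elim⟩
    have h0 : n = 0 := by
      have a := gauss n
      rw [SimpleGraph.edgeFinset_eq_empty.2 hG, card_empty] at hE
      rw [← hE] at a
      exact (Nat.mul_eq_zero.1 a.symm).resolve_right (by omega)
    subst h0
    exact ⟨Fin.elim0, by rw [hG, iSup_of_empty], fun i => i.elim0, fun i => i.elim0,
      fun i => i.elim0, fun i => i.elim0⟩
  obtain ⟨a0, a1, h01⟩ := hne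
  have hn : 100000000 ≤ n := by
    have b0 := h01.degree_pos_left
    have b1 := h01.degree_pos_right
    have := hdeg _ _ h01
    omega
  have hcl : ∀ e : Sym2 V, ∃ c l, e ∈ G.edgeFinset →
      e = s(c, l) ∧ 100000000 * G.degree l ≤ n := by
    intro e
    induction e using Sym2.ind with
    | h u v =>
      by_cases k : 100000000 * G.degree v ≤ n
      · exact ⟨u, v, fun _ => ⟨rfl, k⟩⟩
      · exact ⟨v, u, fun h => ⟨Sym2.eq_swap, by
          have := hdeg u v (by simpa using h)
          omega⟩⟩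
  choose c l hcl using hcl
  set A := univ.filter (fun v => n < 100 * G.degree v) with hA
  set eo : Sym2 V → Option V := fun e => if n < 100 * G.degree (c e) then some (c e) else none
    with heo
  have eo1 : ∀ e a, eo e = some a ↔ a ∈ A ∧ c e = a := fun e a => by
    simp only [heo, hA, mem_filter, mem_univ, true_and]
    split_ifs with k
    · rw [Option.some.injEq]
      exact ⟨fun h => ⟨h ▸ k, h⟩, fun h => h.2⟩
    · exact ⟨fun h => absurd h (by simp), fun h => absurd (h.2 ▸ h.1) k⟩
  have cnt : ∀ a ∈ A, (G.edgeFinset.filter (fun e => eo e = some a)).card = G.degree a := by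
    intro a ha
    rw [← G.card_incidenceFinset_eq_degree, SimpleGraph.incidenceFinset_eq_filter]
    congr 1
    refine filter_congr fun e he => ?_
    obtain ⟨b1, b2⟩ := hcl e he
    have b3 := (mem_filter.1 ha).2
    rw [eo1]
    constructor
    · rintro ⟨-, rfl⟩
      have := Sym2.mem_mk_left (c e) (l e)
      rwa [← b1] at this
    · intro h
      rw [b1, Sym2.mem_iff] at h
      rcases h with h | h
      · exact ⟨ha, h.symm⟩
      · rw [← h] at b2
        omega
  have tot : ∑ a ∈ A, G.degree a + (G.edgeFinset.filter (fun e => eo e = none)).card =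
      n * (n + 1) / 2 := by
    rw [← hE, card_eq_sum_card_fiberwise (s := G.edgeFinset) (f := eo) (t := insertNone A)
      (fun e _ => by
      rw [mem_coe, mem_insertNone]
      exact fun a ha => ((eo1 e a).1 ha).1), sum_insertNone, add_comm]
    congr 1
    exact sum_congr rfl fun a ha => (cnt a ha).symm
  obtain ⟨arm, own, n1, n2, n3, n4, n5, n6, n7⟩ := numerics n hn A (fun v => G.degree v)
    (fun a ha => (mem_filter.1 ha).2) _ tot a0
  have emp : ∀ a, a ∉ A → (cells n).filter (fun x => own x = some a) = ∅ := fun a ha =>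
    filter_eq_empty_iff.2 fun x hx e => ha (n3 x hx a e)
  obtain ⟨ε, e1, e2⟩ := label G n hn c l hcl own (by
      rintro (_ | a)
      · exact n5
      · by_cases ha : a ∈ A
        · exact (n4 a ha).trans (cnt a ha).symm
        · rw [emp a ha, filter_eq_empty_iff.2 fun e _ h => ha ((eo1 e a).1 h).1]
          rfl) (by
      intro a s
      by_cases ha : a ∈ A
      · rw [n4 a ha]
        exact n6 a ha s
      · rw [emp a ha]
        simp) (by rwa [n5])
  set ed : ℕ × ℕ → Sym2 V := fun x => if h : x ∈ cells n then ε ⟨x, h⟩ else s(a0, a1) with hed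
  have ed0 : ∀ x (h : x ∈ cells n), ed x = ε ⟨x, h⟩ := fun x h => dif_pos h
  have ed1 : ∀ x ∈ cells n, ed x ∈ G.edgeFinset := fun x h => ed0 x h ▸ (ε ⟨x, h⟩).2
  have ed2 : ∀ x ∈ cells n, s(c (ed x), l (ed x)) = ed x := fun x h => (hcl _ (ed1 x h)).1.symm
  have ed3 : ∀ x ∈ cells n, eo (ed x) = own x := fun x h => ed0 x h ▸ e1 ⟨x, h⟩
  have ed4 : ∀ x ∈ cells n, ∀ y ∈ cells n, x.2 = y.2 → ∀ v, ¬ n < 100 * G.degree v →
      v ∈ ed x → v ∈ ed y → x = y := fun x hx y hy e v v1 v2 v3 =>
    congrArg Subtype.val (e2 ⟨x, hx⟩ ⟨y, hy⟩ e v v1 (ed0 x hx ▸ v2) (ed0 y hy ▸ v3))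
  have mc : ∀ x ∈ cells n, c (ed x) ∈ ed x := fun x h => by
    have := Sym2.mem_mk_left (c (ed x)) (l (ed x))
    rwa [ed2 x h] at this
  have ml : ∀ x ∈ cells n, l (ed x) ∈ ed x := fun x h => by
    have := Sym2.mem_mk_right (c (ed x)) (l (ed x))
    rwa [ed2 x h] at this
  have light : ∀ x ∈ cells n, ¬ n < 100 * G.degree (l (ed x)) := fun x h => by
    have := (hcl _ (ed1 x h)).2
    omega
  have E1 : ∀ x ∈ cells n, G.Adj (c (ed x)) (l (ed x)) := fun x h => by
    rw [← SimpleGraph.mem_edgeSet, ed2 x h]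
    exact SimpleGraph.mem_edgeFinset.1 (ed1 x h)
  refine assemble G n (fun x => c (ed x)) (fun x => l (ed x)) arm E1 (fun u v h => ?_)
    (fun x hx y hy e => ?_) (fun x hx y hy e => ⟨fun k => ?_, fun k => ?_⟩)
    (fun x hx y hy e k => ?_) (fun x hx y hy e k => ?_)
  · obtain ⟨x, hx⟩ := ε.surjective ⟨s(u, v), by simpa using h⟩
    exact ⟨x, x.2, by rw [ed2 x x.2, ed0 x x.2, hx]⟩
  · rw [ed2 x hx, ed2 y hy, ed0 x hx, ed0 y hy] at e
    exact congrArg Subtype.val (ε.injective (Subtype.ext e))
  · obtain ⟨b1, b2⟩ := n1 x hx y hy e k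
    rcases ho : own x with _ | a
    · rw [b2 ho]
    · exact ((eo1 _ a).1 ((ed3 x hx).trans ho)).2.trans
        ((eo1 _ a).1 ((ed3 y hy).trans (b1.symm.trans ho))).2.symm
  · by_cases hv : n < 100 * G.degree (c (ed x))
    · have hA' : c (ed x) ∈ A := mem_filter.2 ⟨mem_univ _, hv⟩
      exact n2 x hx y hy (c (ed x)) e ((ed3 x hx).symm.trans ((eo1 _ _).2 ⟨hA', rfl⟩))
        ((ed3 y hy).symm.trans ((eo1 _ _).2 ⟨hA', k.symm⟩))
    · rw [ed4 x hx y hy e _ hv (mc x hx) (k ▸ mc y hy)]
  · have := ed4 x hx y hy e _ (light x hx) (ml x hx) (k ▸ mc y hy)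
    subst this
    exact (E1 x hx).ne k.symm
  · exact ed4 x hx y hy e _ (light x hx) (ml x hx) (k ▸ ml y hy)

end Pool.Agent.MP_f65396_co.h32
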